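import Mathlib

/-!
# Squares of primes below the Frobenius number: definitions
-/

set_option autoImplicit false

namespace Pool.Agent.Helper45.SQ

open Finset

/-- `n` is a combination of `a` and `b` with natural coefficients. -/
def Rep (a b n : ℕ) : Prop := ∃ x y : ℕ, n = a * x + b * y

open Classical in
/-- The number of primes `p` with `p ^ 2 ≤ a b - a - b` whose square is a combination of `a` and `b`
with natural coefficients. -/
noncomputable def pi2 (a b : ℕ) : ℕ :=
  ((range (a * b)).filter (fun p => p.Prime ∧ p ^ 2 + a + b ≤ a * b ∧ Rep a b (p ^ 2))).card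

/-- `√g / log g` for `g = a b - a - b`. -/
noncomputable def size (a b : ℕ) : ℝ :=
  Real.sqrt ((a : ℝ) * b - a - b) / Real.log ((a : ℝ) * b - a - b)

end Pool.Agent.Helper45.SQ
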