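import Pool.Agent.Helper45.SQ.N

/-!
# Squares of primes below the Frobenius number: `a` fixed, `b` large
-/

set_option autoImplicit false

namespace Pool.Agent.Helper45.SQ

open Finset

/-- If all units modulo `a` have square one then `a` divides `24`. -/
theorem dvd_24_of_units {a : ℕ} (ha : 2 ≤ a) (h : ∀ s : (ZMod a)ˣ, s ^ 2 = 1) : a ∣ 24 := by
  haveI : NeZero a := ⟨by omega⟩
  by_cases h5 : 5 ∣ a
  · exfalso
    have hs := ZMod.unitsMap_surjective h5
    obtain ⟨s, hs⟩ := hs (ZMod.unitOfCoprime 2 (by decide))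
    have h1 := congrArg (ZMod.unitsMap h5) (h s)
    rw [map_pow, hs, map_one] at h1
    have h2 := congrArg (fun u : (ZMod 5)ˣ => (u : ZMod 5)) h1
    simp only [Units.val_pow_eq_pow_val, ZMod.coe_unitOfCoprime, Units.val_one] at h2
    revert h2
    decide
  · have hc : Nat.Coprime 5 a := (Nat.Prime.coprime_iff_not_dvd (by norm_num)).2 h5
    have h1 := h (ZMod.unitOfCoprime 5 hc)
    have h2 := congrArg (fun u : (ZMod a)ˣ => (u : ZMod a)) h1
    simp only [Units.val_pow_eq_pow_val, ZMod.coe_unitOfCoprime, Units.val_one] at h2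
    have h3 : ((24 : ℕ) : ZMod a) = 0 := by
      have : ((24 : ℕ) : ZMod a) = ((5 : ℕ) : ZMod a) ^ 2 - 1 := by push_cast; norm_num
      rw [this, h2, sub_self]
    exact (ZMod.natCast_eq_zero_iff 24 a).1 h3

theorem exists_unit {a : ℕ} (ha : 2 ≤ a) (t : (ZMod a)ˣ)
    (h : ¬ (a ∣ 24 ∧ (t : ZMod a) = -1)) :
    ∃ s Y : ℕ, Nat.Coprime s a ∧ Y + 2 ≤ a ∧ (Y : ZMod a) * t = (s : ZMod a) ^ 2 := by
  haveI : NeZero a := ⟨by omega⟩
  by_contra hne
  push_neg at hne
  have key : ∀ s : (ZMod a)ˣ, ((s : ZMod a)) ^ 2 = -(t : ZMod a) := by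
    intro s
    have hY := hne (s : ZMod a).val ((t⁻¹ * s ^ 2 : (ZMod a)ˣ) : ZMod a).val
      (ZMod.val_coe_unit_coprime s)
    have h1 : ((((t⁻¹ * s ^ 2 : (ZMod a)ˣ) : ZMod a).val : ℕ) : ZMod a) * t =
        (((s : ZMod a).val : ℕ) : ZMod a) ^ 2 := by
      rw [ZMod.natCast_val, ZMod.natCast_val, ZMod.cast_id, ZMod.cast_id]
      push_cast
      rw [mul_comm, ← mul_assoc, Units.mul_inv, one_mul]
    have hlt := ZMod.val_lt ((t⁻¹ * s ^ 2 : (ZMod a)ˣ) : ZMod a)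
    have hnot : ¬ (((t⁻¹ * s ^ 2 : (ZMod a)ˣ) : ZMod a).val + 2 ≤ a) := fun hle => hY hle h1
    have heq : ((t⁻¹ * s ^ 2 : (ZMod a)ˣ) : ZMod a).val + 1 = a := by omega
    have h2 : (((((t⁻¹ * s ^ 2 : (ZMod a)ˣ) : ZMod a).val + 1 : ℕ)) : ZMod a) = 0 := by
      rw [heq, ZMod.natCast_self]
    rw [Nat.cast_add, Nat.cast_one] at h2
    have h3 : ((((t⁻¹ * s ^ 2 : (ZMod a)ˣ) : ZMod a).val : ℕ) : ZMod a) = -1 :=
      eq_neg_of_add_eq_zero_left h2
    rw [h3] at h1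
    rw [ZMod.natCast_val, ZMod.cast_id] at h1
    rw [← h1]
    ring
  have ht : (t : ZMod a) = -1 := by
    have := key 1
    rw [Units.val_one, one_pow] at this
    rw [this, neg_neg]
  refine h ⟨dvd_24_of_units ha fun s => ?_, ht⟩
  ext
  rw [Units.val_pow_eq_pow_val, key s, ht, neg_neg, Units.val_one]

theorem size_le {a b : ℕ} (ha : 2 ≤ a) (hb : 4 * a ≤ b) (hb2 : 8 ≤ b) :
    size a b ≤ Real.sqrt a * (Real.sqrt b / Real.log (Real.sqrt b)) := by
  have ha' : (2 : ℝ) ≤ a := by exact_mod_cast ha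
  have hb' : 4 * (a : ℝ) ≤ b := by exact_mod_cast hb
  have hb8 : (8 : ℝ) ≤ b := by exact_mod_cast hb2
  have hg1 : (a : ℝ) * b - a - b ≤ a * b := by linarith
  have hg2 : (b : ℝ) / 2 ≤ (a : ℝ) * b - a - b := by nlinarith
  have hs1 : Real.sqrt ((a : ℝ) * b - a - b) ≤ Real.sqrt a * Real.sqrt b := by
    rw [← Real.sqrt_mul (by linarith)]
    exact Real.sqrt_le_sqrt hg1
  have hlogb : 0 < Real.log (Real.sqrt b) := by
    apply Real.log_pos
    rw [show (1 : ℝ) = Real.sqrt 1 by simp]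
    exact Real.sqrt_lt_sqrt (by norm_num) (by linarith)
  have hl : Real.log (Real.sqrt b) ≤ Real.log ((a : ℝ) * b - a - b) := by
    apply Real.log_le_log (Real.sqrt_pos.2 (by linarith))
    refine le_trans ?_ hg2
    rw [show (b : ℝ) / 2 = Real.sqrt (((b : ℝ) / 2) ^ 2) by rw [Real.sqrt_sq]; linarith]
    apply Real.sqrt_le_sqrt
    nlinarith
  unfold size
  rw [← mul_div_assoc]
  exact div_le_div₀ (by positivity) hs1 hlogb hl

theorem fixed_class {a : ℕ} (ha : 2 ≤ a) (t : (ZMod a)ˣ)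
    (h : ¬ (a ∣ 24 ∧ (t : ZMod a) = -1)) :
    ∃ c : ℝ, 0 < c ∧ ∃ B : ℕ, ∀ b : ℕ, B ≤ b → (b : ZMod a) = t →
      c * size a b ≤ (pi2 a b : ℝ) := by
  classical
  haveI : NeZero a := ⟨by omega⟩
  obtain ⟨s, Y, hs, hY, hYt⟩ := exists_unit ha t h
  have ha' : (2 : ℝ) ≤ a := by exact_mod_cast ha
  have hY' : (Y : ℝ) + 2 ≤ a := by exact_mod_cast hY
  have hαβ : Real.sqrt Y < Real.sqrt ((a : ℝ) - 3 / 2) :=
    Real.sqrt_lt_sqrt (Nat.cast_nonneg _) (by linarith)
  obtain ⟨c, hc, Y₀, hY₀⟩ := primes_ap (by omega : 1 ≤ a) hs (Real.sqrt_nonneg _) hαβ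
  refine ⟨c / Real.sqrt a, by positivity, 4 * a + 8 + ⌈Y₀ ^ 2⌉₊, fun b hb hbt => ?_⟩
  have hb1 : 4 * a ≤ b := by omega
  have hb2 : 8 ≤ b := by omega
  have hb' : 4 * (a : ℝ) ≤ b := by exact_mod_cast hb1
  have hb8 : (8 : ℝ) ≤ b := by exact_mod_cast hb2
  have hYb : Y₀ ≤ Real.sqrt b := by
    apply Real.le_sqrt_of_sq_le
    refine (Nat.le_ceil _).trans ?_
    exact_mod_cast (by omega : ⌈Y₀ ^ 2⌉₊ ≤ b)
  have h1 := hY₀ _ hYb
  have h2 := size_le ha hb1 hb2
  have hsa : 0 < Real.sqrt a := Real.sqrt_pos.2 (by linarith)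
  have h3 : c / Real.sqrt a * size a b ≤ c * (Real.sqrt b / Real.log (Real.sqrt b)) := by
    calc c / Real.sqrt a * size a b
        ≤ c / Real.sqrt a * (Real.sqrt a * (Real.sqrt b / Real.log (Real.sqrt b))) :=
          mul_le_mul_of_nonneg_left h2 (by positivity)
      _ = c * (Real.sqrt b / Real.log (Real.sqrt b)) := by field_simp
  refine h3.trans (h1.trans ?_)
  have hcard : ((range (⌊Real.sqrt ((a : ℝ) - 3 / 2) * Real.sqrt b⌋₊ + 1)).filter
      (fun p => p.Prime ∧ p ≡ s [MOD a] ∧ Real.sqrt Y * Real.sqrt b < p)).card ≤ pi2 a b := by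
    unfold pi2
    apply Finset.card_le_card
    intro p hp
    rw [Finset.mem_filter, Finset.mem_range] at hp
    obtain ⟨hp1, hp2, hp3, hp4⟩ := hp
    have hpb : (p : ℝ) ≤ Real.sqrt ((a : ℝ) - 3 / 2) * Real.sqrt b := by
      refine (Nat.cast_le.2 (Nat.lt_succ_iff.1 hp1)).trans (Nat.floor_le (by positivity))
    rw [← Real.sqrt_mul (by linarith)] at hpb
    rw [← Real.sqrt_mul (Nat.cast_nonneg _)] at hp4
    have hq1 : (p : ℝ) ^ 2 ≤ ((a : ℝ) - 3 / 2) * b := by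
      have := Real.sq_sqrt (show 0 ≤ ((a : ℝ) - 3 / 2) * b by nlinarith)
      have h0 : (0 : ℝ) ≤ p := Nat.cast_nonneg _
      nlinarith
    have hq2 : (Y : ℝ) * b < (p : ℝ) ^ 2 := by
      have := Real.sq_sqrt (show 0 ≤ (Y : ℝ) * b by positivity)
      have h0 : (0 : ℝ) ≤ Real.sqrt ((Y : ℝ) * b) := Real.sqrt_nonneg _
      nlinarith
    have hq3 : p ^ 2 + a + b ≤ a * b := by
      have : (p : ℝ) ^ 2 + a + b ≤ a * b := by nlinarith
      exact_mod_cast this
    have hq4 : Y * b ≤ p ^ 2 := by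
      have : (Y : ℝ) * b ≤ (p : ℝ) ^ 2 := hq2.le
      exact_mod_cast this
    rw [Finset.mem_filter, Finset.mem_range]
    refine ⟨?_, hp2, hq3, ?_⟩
    · have : p ≤ p ^ 2 := Nat.le_self_pow (by norm_num) p
      omega
    · have hz : ((p ^ 2 : ℕ) : ZMod a) = ((Y * b : ℕ) : ZMod a) := by
        have hps : (p : ZMod a) = (s : ZMod a) := (ZMod.natCast_eq_natCast_iff _ _ _).2 hp3
        push_cast
        rw [hps, ← hYt, hbt]
      have hmod : Y * b ≡ p ^ 2 [MOD a] := ((ZMod.natCast_eq_natCast_iff _ _ _).1 hz).symm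
      obtain ⟨x, hx⟩ := (Nat.modEq_iff_dvd' hq4).1 hmod
      exact ⟨x, Y, by rw [← hx, mul_comm b Y]; omega⟩
  exact_mod_cast hcard

/-- ROW F1 (fixed `a`, from primes_ap). -/
theorem fixed_a {a : ℕ} (ha : 2 ≤ a) : ∃ c : ℝ, 0 < c ∧ ∃ B : ℕ, ∀ b : ℕ, B ≤ b →
    Nat.Coprime a b → ¬ (a ∣ 24 ∧ a ∣ b + 1) → c * size a b ≤ (pi2 a b : ℝ) := by
  classical
  haveI : NeZero a := ⟨by omega⟩
  have hall : ∀ t : (ZMod a)ˣ, ∃ c : ℝ, 0 < c ∧ ∃ B : ℕ, ∀ b : ℕ, B ≤ b → (b : ZMod a) = t →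
      ¬ (a ∣ 24 ∧ (t : ZMod a) = -1) → c * size a b ≤ (pi2 a b : ℝ) := by
    intro t
    by_cases h : a ∣ 24 ∧ (t : ZMod a) = -1
    · exact ⟨1, one_pos, 0, fun b _ _ h' => absurd h h'⟩
    · obtain ⟨c, hc, B, hB⟩ := fixed_class ha t h
      exact ⟨c, hc, B, fun b hb hbt _ => hB b hb hbt⟩
  choose c hc B hB using hall
  refine ⟨Finset.univ.inf' Finset.univ_nonempty c, ?_, Finset.univ.sup B + 4 * a + 8,
    fun b hb hab hne => ?_⟩
  · rw [Finset.lt_inf'_iff]
    exact fun t _ => hc t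
  · have hcop : Nat.Coprime b a := hab.symm
    have h1 := hB (ZMod.unitOfCoprime b hcop) b
      ((Finset.le_sup (f := B) (Finset.mem_univ _)).trans (by omega))
      (ZMod.coe_unitOfCoprime b hcop).symm ?_
    · refine le_trans (mul_le_mul_of_nonneg_right (Finset.inf'_le c (Finset.mem_univ _)) ?_) h1
      unfold size
      have ha' : (2 : ℝ) ≤ a := by exact_mod_cast ha
      have hb' : 4 * (a : ℝ) ≤ b := by exact_mod_cast (by omega : 4 * a ≤ b)
      have hb8 : (8 : ℝ) ≤ b := by exact_mod_cast (by omega : 8 ≤ b)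
      apply div_nonneg (Real.sqrt_nonneg _)
      apply Real.log_nonneg
      nlinarith
    · rintro ⟨h24, ht⟩
      refine hne ⟨h24, ?_⟩
      rw [ZMod.coe_unitOfCoprime] at ht
      have : ((b + 1 : ℕ) : ZMod a) = 0 := by push_cast; rw [ht]; ring
      exact (ZMod.natCast_eq_zero_iff _ _).1 this

/-- ROW F2 (the exceptional pairs). -/
theorem fixed_exc {a : ℕ} (ha : 2 ≤ a) (ha24 : a ∣ 24) : ∃ B : ℕ, ∀ b : ℕ, B ≤ b →
    a ∣ b + 1 → pi2 a b = if a ≤ 4 then 1 else 0 := by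
  classical
  refine ⟨100, fun b hb hab => ?_⟩
  have ha24' : a ≤ 24 := Nat.le_of_dvd (by norm_num) ha24
  -- a represented square of a prime has a prime dividing `a`
  have key : ∀ p : ℕ, p.Prime → p ^ 2 + a + b ≤ a * b → Rep a b (p ^ 2) →
      p ∣ a ∧ a ∣ p ^ 2 := by
    rintro p hp hle ⟨x, y, hxy⟩
    have hpa : p ∣ a := by
      by_contra hpa
      have hcop : Nat.Coprime p a := (Nat.Prime.coprime_iff_not_dvd hp).2 hpa
      have h1 : (a : ℤ) ∣ (p : ℤ) ^ 2 - 1 := by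
        have hsq : ∀ a ∈ Nat.divisors 24, ∀ r ∈ range a, Nat.Coprime r a → a ∣ r ^ 2 + (a - 1) := by
          decide
        have h2 := hsq a (Nat.mem_divisors.2 ⟨ha24, by norm_num⟩) (p % a)
          (Finset.mem_range.2 (Nat.mod_lt _ (by omega))) (by
            rw [Nat.coprime_iff_gcd_eq_one, ← Nat.gcd_rec, Nat.gcd_comm]; exact hcop)
        have h3 : ((p % a : ℕ) : ℤ) = (p : ℤ) - a * ((p / a : ℕ) : ℤ) := by
          have := Nat.mod_add_div p a
          have h4 : ((p % a : ℕ) : ℤ) + a * ((p / a : ℕ) : ℤ) = p := by exact_mod_cast this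
          linarith
        have h5 : (a : ℤ) ∣ ((p % a : ℕ) : ℤ) ^ 2 + ((a : ℤ) - 1) := by
          have h6 : (a : ℤ) ∣ (((p % a) ^ 2 + (a - 1) : ℕ) : ℤ) := Int.natCast_dvd_natCast.2 h2
          rw [Nat.cast_add, Nat.cast_sub (by omega), Nat.cast_pow, Nat.cast_one] at h6
          exact h6
        obtain ⟨k, hk⟩ := h5
        rw [h3] at hk
        refine ⟨k - 1 + 2 * (p : ℤ) * ((p / a : ℕ) : ℤ) - a * ((p / a : ℕ) : ℤ) ^ 2, ?_⟩
        linear_combination hk
      obtain ⟨m, hm⟩ := hab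
      obtain ⟨k, hk⟩ := h1
      have hm' : (b : ℤ) + 1 = a * m := by exact_mod_cast hm
      have hxy' : (p : ℤ) ^ 2 = a * x + b * y := by exact_mod_cast hxy
      have h7 : (a : ℤ) ∣ (y : ℤ) + 1 := by
        refine ⟨x + m * y - k, ?_⟩
        linear_combination hxy' + (y : ℤ) * hm' - hk
      have h8 : a ≤ y + 1 := by
        apply Nat.le_of_dvd (by omega)
        exact_mod_cast h7
      have h9 : b * (a - 1) ≤ b * y := Nat.mul_le_mul_left b (by omega)
      have h10 : b * (a - 1) + b = a * b := by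
        obtain ⟨c, rfl⟩ : ∃ c, a = c + 1 := ⟨a - 1, by omega⟩
        simp only [Nat.add_sub_cancel]
        ring
      omega
    refine ⟨hpa, ?_⟩
    have hp24 : p ∣ 24 := hpa.trans ha24
    have hp3 : p ≤ 24 := Nat.le_of_dvd (by norm_num) hp24
    have hp4 : p = 2 ∨ p = 3 := by
      interval_cases p <;> revert hp hp24 <;> decide
    have hp5 : p ^ 2 ≤ 9 := by rcases hp4 with rfl | rfl <;> norm_num
    have hy : y = 0 := by
      by_contra hy
      have : b * 1 ≤ b * y := Nat.mul_le_mul_left b (Nat.one_le_iff_ne_zero.2 hy)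
      omega
    subst hy
    exact ⟨x, by simpa using hxy⟩
  unfold pi2
  have hdiv : a ∈ Nat.divisors 24 := Nat.mem_divisors.2 ⟨ha24, by norm_num⟩
  have hcases : a = 2 ∨ a = 3 ∨ a = 4 ∨ a = 6 ∨ a = 8 ∨ a = 12 ∨ a = 24 := by
    interval_cases a <;> revert ha24 <;> decide
  have hempty : ∀ q : ℕ, (∀ p : ℕ, p.Prime → p ∣ a → a ∣ p ^ 2 → p = q) → q.Prime → a ∣ q ^ 2 →
      q ^ 2 ≤ 9 →
      ((range (a * b)).filter (fun p => p.Prime ∧ p ^ 2 + a + b ≤ a * b ∧ Rep a b (p ^ 2))).card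
        = 1 := by
    intro q hq hqp hqa hq9
    rw [Finset.card_eq_one]
    refine ⟨q, ?_⟩
    ext p
    rw [Finset.mem_filter, Finset.mem_singleton, Finset.mem_range]
    have hab2 : 2 * b ≤ a * b := Nat.mul_le_mul_right b ha
    have hle : q ^ 2 + a + b ≤ a * b := by
      omega
    constructor
    · rintro ⟨_, h1, h2, h3⟩
      obtain ⟨h4, h5⟩ := key p h1 h2 h3
      exact hq p h1 h4 h5
    · rintro rfl
      refine ⟨?_, hqp, hle, ?_⟩
      · have : p ≤ p ^ 2 := Nat.le_self_pow (by norm_num) p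
        omega
      · obtain ⟨x, hx⟩ := hqa
        exact ⟨x, 0, by simpa using hx⟩
  have hnone : (∀ p : ℕ, p.Prime → p ∣ a → a ∣ p ^ 2 → False) →
      ((range (a * b)).filter (fun p => p.Prime ∧ p ^ 2 + a + b ≤ a * b ∧ Rep a b (p ^ 2))).card
        = 0 := by
    intro hq
    rw [Finset.card_eq_zero, Finset.filter_eq_empty_iff]
    rintro p _ ⟨h1, h2, h3⟩
    obtain ⟨h4, h5⟩ := key p h1 h2 h3
    exact hq p h1 h4 h5
  have hprimes : ∀ p : ℕ, p.Prime → p ∣ a → p = 2 ∨ p = 3 := by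
    intro p hp hpa
    have hp24 : p ∣ 24 := hpa.trans ha24
    have hp3 : p ≤ 24 := Nat.le_of_dvd (by norm_num) hp24
    interval_cases p <;> revert hp hp24 <;> decide
  rcases hcases with rfl | rfl | rfl | rfl | rfl | rfl | rfl
  · rw [if_pos (by norm_num)]
    refine hempty 2 (fun p hp h1 h2 => ?_) (by norm_num) (by norm_num) (by norm_num)
    rcases hprimes p hp h1 with rfl | rfl
    · rfl
    · revert h1; decide
  · rw [if_pos (by norm_num)]
    refine hempty 3 (fun p hp h1 h2 => ?_) (by norm_num) (by norm_num) (by norm_num)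
    rcases hprimes p hp h1 with rfl | rfl
    · revert h1; decide
    · rfl
  · rw [if_pos (by norm_num)]
    refine hempty 2 (fun p hp h1 h2 => ?_) (by norm_num) (by norm_num) (by norm_num)
    rcases hprimes p hp h1 with rfl | rfl
    · rfl
    · revert h1; decide
  all_goals
    rw [if_neg (by norm_num)]
    refine hnone fun p hp h1 h2 => ?_
    rcases hprimes p hp h1 with rfl | rfl
    · revert h2; decide
    · revert h2; decide

end Pool.Agent.Helper45.SQ
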