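import Pool.Agent.Helper64.PNT.Primes
import Pool.Agent.Helper45.SQ.Defs

/-!
# Lower bounds for the number of primes, from the prime number theorem in arithmetic progressions
-/

set_option autoImplicit false

namespace Pool.Agent.Helper45.SQ

open Finset Filter Topology

open Pool.Agent.Helper64.PNT in
lemma theta_diff {q : ℕ} (s : ZMod q) {A B : ℝ} (hAB : A ≤ B) (hB : 1 ≤ B) :
    thetaAP s B - thetaAP s A ≤ (((range (⌊B⌋₊ + 1)).filter
      (fun p : ℕ => p.Prime ∧ (p : ZMod q) = s ∧ A < p)).card : ℝ) * Real.log B := by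
  classical
  have h1 : thetaAP s B = thetaAP s A + ∑ p ∈ (range (⌊B⌋₊ + 1)).filter
      (fun p : ℕ => p.Prime ∧ (p : ZMod q) = s ∧ A < p), Real.log p := by
    unfold thetaAP
    rw [← Finset.sum_union]
    · apply Finset.sum_congr _ fun _ _ => rfl
      ext p
      simp only [Finset.mem_filter, Finset.mem_Icc, Finset.mem_union, Finset.mem_range]
      constructor
      · rintro ⟨⟨h1, h2⟩, h3, h4⟩
        by_cases h5 : A < p
        · exact Or.inr ⟨by omega, h3, h4, h5⟩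
        · exact Or.inl ⟨⟨h1, Nat.le_floor (not_lt.1 h5)⟩, h3, h4⟩
      · rintro (⟨⟨h1, h2⟩, h3, h4⟩ | ⟨h1, h3, h4, h5⟩)
        · exact ⟨⟨h1, h2.trans (Nat.floor_le_floor hAB)⟩, h3, h4⟩
        · exact ⟨⟨h3.one_le, by omega⟩, h3, h4⟩
    · rw [Finset.disjoint_left]
      intro p hp hp'
      simp only [Finset.mem_filter, Finset.mem_Icc, Finset.mem_range] at hp hp'
      have h1 : (p : ℝ) ≤ A := by
        have h2 : 1 ≤ ⌊A⌋₊ := hp.1.1.trans hp.1.2
        have h3 : 0 ≤ A := by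
          by_contra hc
          rw [Nat.floor_of_nonpos (not_le.1 hc).le] at h2
          omega
        exact (Nat.le_floor_iff h3).1 hp.1.2
      linarith [hp'.2.2.2]
  rw [h1, add_sub_cancel_left]
  calc _ ≤ ∑ p ∈ (range (⌊B⌋₊ + 1)).filter
        (fun p : ℕ => p.Prime ∧ (p : ZMod q) = s ∧ A < p), Real.log B := by
        refine Finset.sum_le_sum fun p hp => ?_
        rw [Finset.mem_filter, Finset.mem_range] at hp
        apply Real.log_le_log
        · exact_mod_cast hp.2.1.pos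
        · exact (Nat.le_floor_iff (by linarith)).1 (by omega)
    _ = _ := by rw [Finset.sum_const, nsmul_eq_mul]

open Pool.Agent.Helper64.PNT in
/-- the differences of the Chebyshev function of a residue class -/
lemma theta_lower {q : ℕ} [NeZero q] {s : ZMod q} (hs : IsUnit s) {α β : ℝ} (hα : 0 ≤ α)
    (hαβ : α < β) {κ : ℝ} (hκ : κ < (β - α) * (q.totient : ℝ)⁻¹) : ∀ᶠ y : ℝ in atTop,
    κ * y ≤ thetaAP s (β * y) - thetaAP s (α * y) := by
  have hβ : 0 < β := by linarith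
  have key : ∀ γ : ℝ, 0 ≤ γ →
      Tendsto (fun y : ℝ => thetaAP s (γ * y) / y) atTop (𝓝 (γ * (q.totient : ℝ)⁻¹)) := by
    intro γ hγ
    rcases hγ.eq_or_lt with h | h
    · subst h
      have h1 : (fun y : ℝ => thetaAP s (0 * y) / y) = fun _ => 0 := by
        funext y
        unfold thetaAP
        simp
      rw [h1, zero_mul]
      exact tendsto_const_nhds
    · have h1 := (thetaAP_tendsto hs).comp (tendsto_id.const_mul_atTop h)
      have h2 := h1.const_mul γ
      refine h2.congr' ?_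
      filter_upwards [eventually_gt_atTop 0] with y hy
      simp only [Function.comp, id]
      field_simp
  have h1 := ((key β hβ.le).sub (key α hα))
  have h2 : κ < β * (q.totient : ℝ)⁻¹ - α * (q.totient : ℝ)⁻¹ := by
    rw [← sub_mul]
    exact hκ
  filter_upwards [h1.eventually (lt_mem_nhds h2), eventually_gt_atTop 0] with y hy hy0
  rw [← sub_div, lt_div_iff₀ hy0] at hy
  exact hy.le

theorem primes_short {η : ℝ} (hη : 0 < η) (hη1 : η < 1) : ∃ X₀ : ℕ, ∀ x X : ℕ, X₀ ≤ X →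
    (x : ℝ) ≤ (1 - η) * X →
    η / 2 * X / Real.log X ≤ (((Ioc x X).filter Nat.Prime).card : ℝ) := by
  have hs : IsUnit (0 : ZMod 1) := by
    have : (0 : ZMod 1) = 1 := Subsingleton.elim _ _
    rw [this]; exact isUnit_one
  have h1 := theta_lower hs (α := 1 - η) (β := 1) (by linarith) (by linarith) (κ := η / 2)
    (by
      have : (Nat.totient 1 : ℝ)⁻¹ = 1 := by simp
      rw [this]
      linarith)
  obtain ⟨Y₀, hY₀⟩ := Filter.eventually_atTop.1 h1
  obtain ⟨X₀, hX₀⟩ := exists_nat_ge Y₀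
  refine ⟨X₀ + 2, fun x X hX hx => ?_⟩
  have hX' : Y₀ ≤ X := hX₀.trans (by exact_mod_cast (by omega : X₀ ≤ X))
  have hX2 : (2 : ℝ) ≤ X := by exact_mod_cast (by omega : 2 ≤ X)
  have h2 := hY₀ X hX'
  rw [one_mul] at h2
  have h3 := theta_diff (0 : ZMod 1) (A := (1 - η) * X) (B := X) (by nlinarith) (by linarith)
  have hl : 0 < Real.log X := Real.log_pos (by linarith)
  rw [div_le_iff₀ hl]
  refine (h2.trans h3).trans ?_
  apply mul_le_mul_of_nonneg_right _ hl.le
  have h4 : ((range (⌊(X : ℝ)⌋₊ + 1)).filter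
      (fun p : ℕ => p.Prime ∧ (p : ZMod 1) = 0 ∧ (1 - η) * X < p)) ⊆
      (Ioc x X).filter Nat.Prime := by
    intro p hp
    rw [Finset.mem_filter, Finset.mem_range, Nat.floor_natCast] at hp
    rw [Finset.mem_filter, Finset.mem_Ioc]
    refine ⟨⟨?_, by omega⟩, hp.2.1⟩
    have : (x : ℝ) < p := lt_of_le_of_lt hx hp.2.2.2
    exact_mod_cast this
  exact_mod_cast Finset.card_le_card h4

theorem primes_ap {a s : ℕ} (ha : 1 ≤ a) (hs : Nat.Coprime s a) {α β : ℝ} (hα : 0 ≤ α)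
    (hαβ : α < β) : ∃ c : ℝ, 0 < c ∧ ∃ Y₀ : ℝ, ∀ y : ℝ, Y₀ ≤ y →
    c * (y / Real.log y) ≤ (((range (⌊β * y⌋₊ + 1)).filter
      (fun p => p.Prime ∧ p ≡ s [MOD a] ∧ α * y < p)).card : ℝ) := by
  have i : NeZero a := ⟨by omega⟩
  have hs' : IsUnit (s : ZMod a) := (ZMod.isUnit_iff_coprime s a).2 hs
  have hφ : (0 : ℝ) < (a.totient : ℝ)⁻¹ := by
    apply inv_pos.2
    exact_mod_cast Nat.totient_pos.2 ha
  have hβ : 0 < β := by linarith
  obtain ⟨κ, hκ⟩ : ∃ κ : ℝ, κ = (β - α) * (a.totient : ℝ)⁻¹ / 2 := ⟨_, rfl⟩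
  have hpos : 0 < (β - α) * (a.totient : ℝ)⁻¹ := mul_pos (by linarith) hφ
  have hκ0 : 0 < κ := by rw [hκ]; linarith
  have h1 := theta_lower hs' hα hαβ (κ := κ) (by rw [hκ]; linarith)
  obtain ⟨Y₀, hY₀⟩ := Filter.eventually_atTop.1 h1
  refine ⟨κ / 2, by linarith, max Y₀ (max (max β β⁻¹) 2), fun y hy => ?_⟩
  have hy1 : Y₀ ≤ y := (le_max_left _ _).trans hy
  have hy2 : β ≤ y := (le_max_left _ _).trans ((le_max_left _ _).trans ((le_max_right _ _).trans hy))
  have hy3 : β⁻¹ ≤ y :=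
    (le_max_right _ _).trans ((le_max_left _ _).trans ((le_max_right _ _).trans hy))
  have hy4 : 2 ≤ y := (le_max_right _ _).trans ((le_max_right _ _).trans hy)
  have h2 := hY₀ y hy1
  have hB : 1 ≤ β * y := by
    calc 1 = β * β⁻¹ := (mul_inv_cancel₀ hβ.ne').symm
      _ ≤ β * y := mul_le_mul_of_nonneg_left hy3 hβ.le
  have h3 := theta_diff (s : ZMod a) (A := α * y) (B := β * y) (by nlinarith) hB
  have hl : 0 < Real.log y := Real.log_pos (by linarith)
  have h4 : Real.log (β * y) ≤ 2 * Real.log y := by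
    rw [Real.log_mul hβ.ne' (by linarith)]
    have := Real.log_le_log hβ hy2
    linarith
  have h5 : ((range (⌊β * y⌋₊ + 1)).filter
      (fun p : ℕ => p.Prime ∧ (p : ZMod a) = (s : ZMod a) ∧ α * y < p)) =
      (range (⌊β * y⌋₊ + 1)).filter (fun p => p.Prime ∧ p ≡ s [MOD a] ∧ α * y < p) := by
    apply Finset.filter_congr
    intro p _
    rw [ZMod.natCast_eq_natCast_iff]
  rw [h5] at h3
  obtain ⟨M, hM⟩ : ∃ M : ℝ, M = (((range (⌊β * y⌋₊ + 1)).filter
      (fun p => p.Prime ∧ p ≡ s [MOD a] ∧ α * y < p)).card : ℝ) := ⟨_, rfl⟩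
  rw [← hM] at h3 ⊢
  have hM0 : 0 ≤ M := by rw [hM]; exact Nat.cast_nonneg _
  rw [← mul_div_assoc, div_le_iff₀ hl]
  have h6 : κ * y ≤ M * (2 * Real.log y) :=
    (h2.trans h3).trans (mul_le_mul_of_nonneg_left h4 hM0)
  linarith

end Pool.Agent.Helper45.SQ
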