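import Pool.Agent.Helper45.SQ.Weyl
import Pool.Agent.Helper29.UT.BT

/-!
# The squares of primes below the Frobenius number, first range: Selberg sieve and Weyl sums
(helper23)
-/

set_option autoImplicit false

namespace Pool.Agent.Helper45.SQ

open Finset Pool.Agent.Helper29.QT Pool.Agent.Helper29.UT

lemma sum_ww_small2 {z : ℕ} (hz : 1 ≤ z) (S : Finset ℕ) (g : ℕ → ℝ) {Q : ℝ}
    (hQ : ∀ D : ℕ, 1 ≤ D → D ≤ z ^ 2 → |∑ n ∈ S.filter (D ∣ ·), g n| ≤ Q) :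
    ∑ n ∈ S, ww z n * g n ≤ (z : ℝ) ^ 4 * Q := by
  rw [sum_ww]
  have hQ0 : 0 ≤ Q := (abs_nonneg _).trans (hQ 1 le_rfl (Nat.one_le_pow _ _ hz))
  have h1 : ∀ d ∈ Icc 1 z, ∀ e ∈ Icc 1 z, lam z d * lam z e *
      ∑ n ∈ S.filter (Nat.lcm d e ∣ ·), g n ≤ |lam z d * lam z e| * Q := by
    intro d hd e he
    rw [Finset.mem_Icc] at hd he
    refine (le_abs_self _).trans ?_
    rw [abs_mul]
    apply mul_le_mul_of_nonneg_left _ (abs_nonneg _)
    apply hQ _ (Nat.lcm_pos (by omega) (by omega))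
    calc Nat.lcm d e ≤ d * e := Nat.le_of_dvd (Nat.mul_pos (by omega) (by omega))
          (Nat.lcm_dvd_mul d e)
      _ ≤ z * z := Nat.mul_le_mul hd.2 he.2
      _ = z ^ 2 := by ring
  refine (Finset.sum_le_sum fun d hd => Finset.sum_le_sum fun e he => h1 d hd e he).trans ?_
  simp_rw [← Finset.sum_mul]
  exact mul_le_mul_of_nonneg_right (sum_abs_lam hz) hQ0

lemma sum_dvd_Ioc {β : Type*} [AddCommMonoid β] {x t D : ℕ} (hD : 1 ≤ D) (f : ℕ → β) :
    ∑ n ∈ (Ioc x t).filter (D ∣ ·), f n = ∑ k ∈ range (t / D - x / D), f (D * (x / D + 1 + k)) := by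
  symm
  apply Finset.sum_bij (fun k _ => D * (x / D + 1 + k))
  · intro k hk
    rw [Finset.mem_range] at hk
    rw [Finset.mem_filter, Finset.mem_Ioc]
    refine ⟨⟨?_, ?_⟩, dvd_mul_right _ _⟩
    · have h1 := Nat.lt_mul_div_succ x (show 0 < D by omega)
      refine lt_of_lt_of_le h1 (Nat.mul_le_mul_left D (by omega))
    · calc D * (x / D + 1 + k) ≤ D * (t / D) := Nat.mul_le_mul_left D (by omega)
        _ ≤ t := Nat.mul_div_le t D
  · intro k _ k' _ h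
    have h1 := Nat.eq_of_mul_eq_mul_left (show 0 < D by omega) h
    omega
  · intro n hn
    rw [Finset.mem_filter, Finset.mem_Ioc] at hn
    obtain ⟨m, rfl⟩ := hn.2
    have h1 : x / D < m := by
      rw [Nat.div_lt_iff_lt_mul (show 0 < D by omega)]
      rw [mul_comm] at hn
      exact hn.1.1
    have h2 : m ≤ t / D := by
      rw [Nat.le_div_iff_mul_le (show 0 < D by omega), mul_comm]
      exact hn.1.2
    refine ⟨m - (x / D + 1), ?_, ?_⟩
    · rw [Finset.mem_range]; omega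
    · congr 1
      omega
  · intro k _
    rfl

lemma card_zero {a H : ℕ} [NeZero a] (u : (ZMod a)ˣ) {i j D : ℕ} (hi : i < H) (hj : j < H)
    (hij : i ≠ j) (hD : 1 ≤ D) :
    (univ.filter (fun l : ZMod a => 2 * (((i : ZMod a) - j) * u * (D : ZMod a) ^ 2) * l = 0)).card ≤
      2 * H * D ^ 2 := by
  classical
  obtain ⟨h, hh1, hhH, hh⟩ : ∃ h : ℕ, 1 ≤ h ∧ h ≤ H ∧ (((i : ZMod a) - j) = h ∨
      ((i : ZMod a) - j) = -(h : ZMod a)) := by
    rcases lt_or_gt_of_ne hij with h | h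
    · refine ⟨j - i, by omega, by omega, Or.inr ?_⟩
      rw [Nat.cast_sub h.le]; ring
    · refine ⟨i - j, by omega, by omega, Or.inl ?_⟩
      rw [Nat.cast_sub h.le]
  have h1 := IsAddCyclic.card_nsmul_eq_zero_le (α := ZMod a) (n := 2 * h * D ^ 2) (by positivity)
  refine le_trans (Finset.card_le_card ?_) (h1.trans ?_)
  · intro l hl
    rw [Finset.mem_filter] at hl ⊢
    refine ⟨Finset.mem_univ _, ?_⟩
    rw [nsmul_eq_mul]
    have h2 : (u : ZMod a) * (((2 * h * D ^ 2 : ℕ) : ZMod a) * l) = 0 := by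
      rcases hh with hh | hh
      · rw [← hl.2, hh]
        push_cast
        ring
      · have h3 : (u : ZMod a) * (((2 * h * D ^ 2 : ℕ) : ZMod a) * l) =
            -(2 * (((i : ZMod a) - j) * u * (D : ZMod a) ^ 2) * l) := by
          rw [hh]
          push_cast
          ring
        rw [h3, hl.2, neg_zero]
    exact (Units.mul_right_eq_zero u).1 h2
  · gcongr

/-- one off-diagonal sum over the multiples of `D` -/
lemma off_diag {H : ℕ} (hH : 1 ≤ H) {z a x t : ℕ} (hz : 2 ≤ z) (haz : z ^ 25 ≤ a)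
    (hat : a ≤ 2 * t) (htz : z ^ 100 ≤ t) [NeZero a] (u : (ZMod a)ˣ)
    {i j D : ℕ} (hi : i < H) (hj : j < H) (hij : i ≠ j) (hD : 1 ≤ D) (hDz : D ≤ z ^ 2) :
    ‖∑ n ∈ (Ioc x t).filter (D ∣ ·),
      (ZMod.stdAddChar (N := a) (((i : ZMod a) - j) * u * (n : ZMod a) ^ 2) : ℂ)‖ ≤
      7 * H * t / (z : ℝ) ^ 8 := by
  set c : ZMod a := ((i : ZMod a) - j) * u * (D : ZMod a) ^ 2 with hc
  set L := t / D - x / D with hL
  have h1 : ∑ n ∈ (Ioc x t).filter (D ∣ ·),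
      (ZMod.stdAddChar (N := a) (((i : ZMod a) - j) * u * (n : ZMod a) ^ 2) : ℂ) =
      ∑ n ∈ range L, (ZMod.stdAddChar (N := a) (c * (((x / D + 1) + n : ℕ) : ZMod a) ^ 2) : ℂ) := by
    rw [sum_dvd_Ioc hD]
    refine Finset.sum_congr rfl fun k _ => ?_
    congr 1
    rw [hc]
    push_cast
    ring
  rw [h1]
  set T := a / z ^ 20 with hT
  have hz20 : 0 < z ^ 20 := by positivity
  have hT5 : z ^ 5 ≤ T := by
    rw [hT, Nat.le_div_iff_mul_le hz20]
    calc z ^ 5 * z ^ 20 = z ^ 25 := by ring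
      _ ≤ a := haz
  have hT1 : 1 ≤ T := le_trans (Nat.one_le_pow _ _ (by omega)) hT5
  have h2 := weyl_range c (x / D + 1) L hT1
  have hK := card_zero u hi hj hij hD
  rw [← hc] at hK
  set K := (univ.filter (fun l : ZMod a => 2 * c * l = 0)).card with hKdef
  have hK2 : (K : ℝ) ≤ 2 * H * (z : ℝ) ^ 4 := by
    have : K ≤ 2 * H * z ^ 4 := by
      refine hK.trans ?_
      calc 2 * H * D ^ 2 ≤ 2 * H * (z ^ 2) ^ 2 := by gcongr
        _ = 2 * H * z ^ 4 := by ring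
    exact_mod_cast this
  have hzR : (2 : ℝ) ≤ z := by exact_mod_cast hz
  have hz0 : (0 : ℝ) < z := by linarith
  have ha0 : (0 : ℝ) < a := by exact_mod_cast Nat.pos_of_ne_zero (NeZero.ne a)
  have hLt : (L : ℝ) ≤ t := by
    have : L ≤ t := (Nat.sub_le _ _).trans (Nat.div_le_self _ _)
    exact_mod_cast this
  have hL0 : (0 : ℝ) ≤ L := Nat.cast_nonneg _
  have ht0 : (0 : ℝ) ≤ t := Nat.cast_nonneg _
  have htz' : (z : ℝ) ^ 100 ≤ t := by exact_mod_cast htz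
  have hat' : (a : ℝ) ≤ 2 * t := by exact_mod_cast hat
  have hTR : (T : ℝ) * (z : ℝ) ^ 20 ≤ a := by
    have : T * z ^ 20 ≤ a := Nat.div_mul_le_self a (z ^ 20)
    exact_mod_cast this
  have hTR2 : (a : ℝ) ≤ 2 * T * (z : ℝ) ^ 20 := by
    have h3 : a < (T + 1) * z ^ 20 := by
      rw [hT, mul_comm]
      exact Nat.lt_mul_div_succ a hz20
    have h4 : (T + 1) * z ^ 20 ≤ 2 * T * z ^ 20 := Nat.mul_le_mul_right _ (by omega)
    exact_mod_cast (h3.le.trans h4)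
  have hT0 : (0 : ℝ) < T := by exact_mod_cast hT1
  have hT1' : (1 : ℝ) ≤ T := by exact_mod_cast hT1
  have hH' : (1 : ℝ) ≤ H := by exact_mod_cast hH
  -- first term
  have h3 : (L : ℝ) * (a / T) ≤ 2 * t ^ 2 / (z : ℝ) ^ 16 := by
    have h4 : (a : ℝ) / T ≤ 2 * (z : ℝ) ^ 20 := by
      rw [div_le_iff₀ hT0]
      linarith
    calc (L : ℝ) * (a / T) ≤ t * (2 * (z : ℝ) ^ 20) := by gcongr
      _ ≤ 2 * t ^ 2 / (z : ℝ) ^ 16 := by
        rw [le_div_iff₀ (by positivity)]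
        have h5 : (z : ℝ) ^ 36 ≤ t := le_trans (pow_le_pow_right₀ (by linarith) (by norm_num)) htz'
        calc (t : ℝ) * (2 * (z : ℝ) ^ 20) * (z : ℝ) ^ 16 = 2 * (t : ℝ) * (z : ℝ) ^ 36 := by ring
          _ ≤ 2 * (t : ℝ) * t := by gcongr
          _ = 2 * (t : ℝ) ^ 2 := by ring
  -- second term
  have h4 : (L : ℝ) * ((2 * T + 1) * (K : ℝ) * (2 * ((L : ℝ) / a + 1))) ≤
      36 * H * t ^ 2 / (z : ℝ) ^ 16 := by
    have h5 : (2 * (T : ℝ) + 1) ≤ 3 * (a / (z : ℝ) ^ 20) := by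
      have : (T : ℝ) ≤ a / (z : ℝ) ^ 20 := by
        rw [le_div_iff₀ (by positivity)]
        exact hTR
      linarith
    have h6 : 2 * ((L : ℝ) / a + 1) ≤ 6 * t / a := by
      rw [le_div_iff₀ ha0]
      have : (L : ℝ) / a * a = L := div_mul_cancel₀ _ ha0.ne'
      nlinarith
    calc (L : ℝ) * ((2 * T + 1) * (K : ℝ) * (2 * ((L : ℝ) / a + 1)))
        ≤ t * ((3 * (a / (z : ℝ) ^ 20)) * (2 * H * (z : ℝ) ^ 4) * (6 * t / a)) := by gcongr
      _ = 36 * H * t ^ 2 / (z : ℝ) ^ 16 := by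
        field_simp
        ring
  have h5 : ‖∑ n ∈ range L,
      (ZMod.stdAddChar (N := a) (c * (((x / D + 1) + n : ℕ) : ZMod a) ^ 2) : ℂ)‖ ^ 2 ≤
      (7 * H * t / (z : ℝ) ^ 8) ^ 2 := by
    calc _ ≤ 2 * t ^ 2 / (z : ℝ) ^ 16 + 36 * H * t ^ 2 / (z : ℝ) ^ 16 := by
          refine h2.trans ?_
          linarith
      _ = (2 + 36 * H) * (t ^ 2 / (z : ℝ) ^ 16) := by ring
      _ ≤ (49 * H ^ 2) * (t ^ 2 / (z : ℝ) ^ 16) := by
          apply mul_le_mul_of_nonneg_right _ (by positivity)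
          nlinarith
      _ = (7 * H * t / (z : ℝ) ^ 8) ^ 2 := by
          field_simp
          ring
  exact le_of_sq_le_sq h5 (by positivity)

/-- ROW R1 (Selberg sieve with Weyl sums; `a` is not small compared with the interval). -/
theorem range1 {H : ℕ} (hH : 1 ≤ H) : ∃ Z₀ : ℕ, ∀ z a x t : ℕ, Z₀ ≤ z → z ^ 25 ≤ a → a ≤ 2 * t →
    z ^ 100 ≤ t → x ≤ t → ∀ (_ : NeZero a) (u : (ZMod a)ˣ),
    ∑ p ∈ (Ioc x t).filter (fun p => p.Prime ∧ z < p), ‖∑ j ∈ range H,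
      (ZMod.stdAddChar (N := a) ((j : ZMod a) * u * (p : ZMod a) ^ 2) : ℂ)‖ ^ 2 ≤
      H * (((t : ℝ) - x) / Real.log (z + 1)) + (t : ℝ) / z := by
  refine ⟨10 * H ^ 3, fun z a x t hz0 haz hat htz hxt hne u => ?_⟩
  have hH3 : 1 ≤ H ^ 3 := Nat.one_le_pow _ _ hH
  have hz : 2 ≤ z := by omega
  have hz1 : 1 ≤ z := by omega
  have hzR : (2 : ℝ) ≤ z := by exact_mod_cast hz
  have hzp : (0 : ℝ) < z := by linarith
  have hH' : (1 : ℝ) ≤ H := by exact_mod_cast hH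
  have ht0 : (0 : ℝ) ≤ t := Nat.cast_nonneg _
  have htz' : (z : ℝ) ^ 100 ≤ t := by exact_mod_cast htz
  have hzH : 10 * (H : ℝ) ^ 3 ≤ z := by exact_mod_cast hz0
  -- the square of the norm
  have hexp : ∀ n : ℕ, ‖∑ j ∈ range H,
      (ZMod.stdAddChar (N := a) ((j : ZMod a) * u * (n : ZMod a) ^ 2) : ℂ)‖ ^ 2 =
      ∑ i ∈ range H, ∑ j ∈ range H,
        (ZMod.stdAddChar (N := a) (((i : ZMod a) - j) * u * (n : ZMod a) ^ 2) : ℂ).re := by
    intro n
    have h1 : ((‖∑ j ∈ range H, (ZMod.stdAddChar (N := a)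
        ((j : ZMod a) * u * (n : ZMod a) ^ 2) : ℂ)‖ ^ 2 : ℝ) : ℂ) =
        ∑ i ∈ range H, ∑ j ∈ range H, (ZMod.stdAddChar (N := a)
          (((i : ZMod a) - j) * u * (n : ZMod a) ^ 2) : ℂ) := by
      push_cast
      rw [← Complex.mul_conj', map_sum, Finset.sum_mul_sum]
      refine Finset.sum_congr rfl fun i _ => Finset.sum_congr rfl fun j _ => ?_
      rw [← AddChar.map_neg_eq_conj, ← AddChar.map_add_eq_mul]
      congr 1
      ring
    have h2 := congrArg Complex.re h1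
    rw [Complex.ofReal_re] at h2
    rw [h2, Complex.re_sum]
    refine Finset.sum_congr rfl fun i _ => ?_
    rw [Complex.re_sum]
  -- from primes to the weights
  have h1 : ∑ p ∈ (Ioc x t).filter (fun p => p.Prime ∧ z < p), ‖∑ j ∈ range H,
      (ZMod.stdAddChar (N := a) ((j : ZMod a) * u * (p : ZMod a) ^ 2) : ℂ)‖ ^ 2 ≤
      ∑ n ∈ Ioc x t, ww z n * ‖∑ j ∈ range H,
      (ZMod.stdAddChar (N := a) ((j : ZMod a) * u * (n : ZMod a) ^ 2) : ℂ)‖ ^ 2 := by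
    calc _ = ∑ p ∈ (Ioc x t).filter (fun p => p.Prime ∧ z < p), ww z p * ‖∑ j ∈ range H,
          (ZMod.stdAddChar (N := a) ((j : ZMod a) * u * (p : ZMod a) ^ 2) : ℂ)‖ ^ 2 := by
          refine Finset.sum_congr rfl fun p hp => ?_
          have hp1 := (Finset.mem_filter.1 hp).2
          rw [ww_prime hz1 hp1.1 hp1.2, one_mul]
      _ ≤ _ := Finset.sum_le_sum_of_subset_of_nonneg (Finset.filter_subset _ _)
          fun n _ _ => mul_nonneg (ww_nonneg _ n) (by positivity)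
  have h2 : ∑ n ∈ Ioc x t, ww z n * ‖∑ j ∈ range H,
      (ZMod.stdAddChar (N := a) ((j : ZMod a) * u * (n : ZMod a) ^ 2) : ℂ)‖ ^ 2 =
      ∑ i ∈ range H, ∑ j ∈ range H, ∑ n ∈ Ioc x t, ww z n *
        (ZMod.stdAddChar (N := a) (((i : ZMod a) - j) * u * (n : ZMod a) ^ 2) : ℂ).re := by
    rw [Finset.sum_congr rfl fun n _ => by rw [hexp n, Finset.mul_sum], Finset.sum_comm]
    refine Finset.sum_congr rfl fun i _ => ?_
    rw [Finset.sum_congr rfl fun n _ => Finset.mul_sum _ _ _, Finset.sum_comm]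
  have hdiag : ∀ i ∈ range H, ∑ n ∈ Ioc x t, ww z n *
      (ZMod.stdAddChar (N := a) (((i : ZMod a) - i) * u * (n : ZMod a) ^ 2) : ℂ).re ≤
      ((t : ℝ) - x) / Real.log (z + 1) + 2 * (z : ℝ) ^ 4 := by
    intro i _
    have h3 : ∀ n ∈ Ioc x t, ww z n *
        (ZMod.stdAddChar (N := a) (((i : ZMod a) - i) * u * (n : ZMod a) ^ 2) : ℂ).re = ww z n := by
      intro n _
      simp
    rw [Finset.sum_congr rfl h3]
    refine (sum_ww_Ioc hz1 hxt).trans ?_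
    have h4 : (0 : ℝ) ≤ (t : ℝ) - x := by
      have : (x : ℝ) ≤ t := by exact_mod_cast hxt
      linarith
    have h5 : 0 < Real.log ((z : ℝ) + 1) := Real.log_pos (by linarith)
    have h6 := log_le_GG z
    have h7 : ((t : ℝ) - x) / GG z ≤ ((t : ℝ) - x) / Real.log (z + 1) :=
      div_le_div_of_nonneg_left h4 h5 h6
    linarith
  set Q : ℝ := 7 * H * t / (z : ℝ) ^ 8 with hQ
  have hQ0 : 0 ≤ Q := by positivity
  have hoff : ∀ i ∈ range H, ∀ j ∈ range H, i ≠ j → ∑ n ∈ Ioc x t, ww z n *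
      (ZMod.stdAddChar (N := a) (((i : ZMod a) - j) * u * (n : ZMod a) ^ 2) : ℂ).re ≤
      (z : ℝ) ^ 4 * Q := by
    intro i hi j hj hij
    rw [Finset.mem_range] at hi hj
    apply sum_ww_small2 hz1
    intro D hD hDz
    rw [← Complex.re_sum]
    exact (Complex.abs_re_le_norm _).trans (off_diag hH hz haz hat htz u hi hj hij hD hDz)
  have hrow : ∀ i ∈ range H, ∑ j ∈ range H, ∑ n ∈ Ioc x t, ww z n *
      (ZMod.stdAddChar (N := a) (((i : ZMod a) - j) * u * (n : ZMod a) ^ 2) : ℂ).re ≤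
      (((t : ℝ) - x) / Real.log (z + 1) + 2 * (z : ℝ) ^ 4) + H * ((z : ℝ) ^ 4 * Q) := by
    intro i hi
    rw [← Finset.sum_erase_add _ _ hi]
    have h3 : ∑ j ∈ (range H).erase i, ∑ n ∈ Ioc x t, ww z n *
        (ZMod.stdAddChar (N := a) (((i : ZMod a) - j) * u * (n : ZMod a) ^ 2) : ℂ).re ≤
        H * ((z : ℝ) ^ 4 * Q) := by
      calc _ ≤ ∑ j ∈ (range H).erase i, (z : ℝ) ^ 4 * Q := by
            refine Finset.sum_le_sum fun j hj => ?_
            rw [Finset.mem_erase] at hj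
            exact hoff i hi j hj.2 (Ne.symm hj.1)
        _ ≤ ∑ j ∈ range H, (z : ℝ) ^ 4 * Q :=
            Finset.sum_le_sum_of_subset_of_nonneg (Finset.erase_subset _ _)
              fun j _ _ => by positivity
        _ = H * ((z : ℝ) ^ 4 * Q) := by rw [Finset.sum_const, Finset.card_range, nsmul_eq_mul]
    have h4 := hdiag i hi
    linarith
  refine h1.trans ?_
  rw [h2]
  refine (Finset.sum_le_sum hrow).trans ?_
  rw [Finset.sum_const, Finset.card_range, nsmul_eq_mul]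
  have h8 : (H : ℝ) * (2 * (z : ℝ) ^ 4) + H * (H * ((z : ℝ) ^ 4 * Q)) ≤ t / z := by
    have e1 : (H : ℝ) * (2 * (z : ℝ) ^ 4) ≤ (t / z) * (1 / 5) := by
      rw [div_mul_eq_mul_div, le_div_iff₀ hzp]
      have h9 : (z : ℝ) ^ 6 ≤ t := le_trans (pow_le_pow_right₀ (by linarith) (by norm_num)) htz'
      have h10 : 10 * (H : ℝ) ≤ z := by
        have : (H : ℝ) ≤ (H : ℝ) ^ 3 := le_self_pow₀ hH' (by norm_num)
        linarith
      have h11 : (H : ℝ) * (2 * (z : ℝ) ^ 4) * z = (10 * H) * (z : ℝ) ^ 5 * (1 / 5) := by ring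
      rw [h11]
      apply mul_le_mul_of_nonneg_right _ (by norm_num)
      calc (10 * (H : ℝ)) * (z : ℝ) ^ 5 ≤ z * (z : ℝ) ^ 5 := by gcongr
        _ = (z : ℝ) ^ 6 := by ring
        _ ≤ t := h9
    have e2 : (H : ℝ) * (H * ((z : ℝ) ^ 4 * Q)) ≤ (t / z) * (4 / 5) := by
      have h9 : (H : ℝ) * (H * ((z : ℝ) ^ 4 * Q)) = (7 * (H : ℝ) ^ 3) * (t / (z : ℝ) ^ 4) := by
        rw [hQ]
        field_simp
      rw [h9]
      have h10 : (7 * (H : ℝ) ^ 3) ≤ z * (7 / 10) := by linarith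
      calc (7 * (H : ℝ) ^ 3) * (t / (z : ℝ) ^ 4) ≤ (z * (7 / 10)) * (t / (z : ℝ) ^ 4) := by gcongr
        _ = (t / z) * ((7 / 10) / (z : ℝ) ^ 2) := by
          field_simp
        _ ≤ (t / z) * (4 / 5) := by
          apply mul_le_mul_of_nonneg_left _ (by positivity)
          rw [div_le_iff₀ (by positivity)]
          nlinarith
    linarith
  have h9 : (H : ℝ) * ((((t : ℝ) - x) / Real.log (z + 1) + 2 * (z : ℝ) ^ 4) +
      H * ((z : ℝ) ^ 4 * Q)) = H * (((t : ℝ) - x) / Real.log (z + 1)) +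
      ((H : ℝ) * (2 * (z : ℝ) ^ 4) + H * (H * ((z : ℝ) ^ 4 * Q))) := by ring
  rw [h9]
  linarith

end Pool.Agent.Helper45.SQ
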