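import Pool.Agent.Helper29.QT.Harm

/-!
# The Selberg sieve in a residue class (helper29)
-/

set_option autoImplicit false

namespace Pool.Agent.Helper45.SQ

open Finset ArithmeticFunction Pool.Agent.Helper29.QT

/-- The squarefree numbers up to `z` which are coprime to `a`. -/
def sqa (a z : ℕ) : Finset ℕ := (sqf z).filter (Nat.Coprime · a)

/-- The normalising sum. -/
noncomputable def GA (a z : ℕ) : ℝ := ∑ k ∈ sqa a z, 1 / (Nat.totient k : ℝ)

/-- The weights. -/
noncomputable def lama (a z d : ℕ) : ℝ :=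
  d * ((∑ k ∈ (sqa a z).filter (d ∣ ·), (moebius (k / d) : ℝ) * (moebius k) / Nat.totient k) /
    GA a z)

lemma mem_sqa {a z k : ℕ} : k ∈ sqa a z ↔ k ∈ sqf z ∧ Nat.Coprime k a := by
  unfold sqa
  rw [Finset.mem_filter]

lemma GA_pos {a z : ℕ} (hz : 1 ≤ z) : 0 < GA a z := by
  unfold GA
  have h1 : 1 ∈ sqa a z :=
    mem_sqa.2 ⟨mem_sqf.2 ⟨⟨le_refl _, hz⟩, squarefree_one⟩, Nat.coprime_one_left a⟩
  refine Finset.sum_pos (fun k hk => ?_) ⟨1, h1⟩
  exact div_pos one_pos (tot_pos (mem_sqa.1 hk).1)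

lemma lama_one {a z : ℕ} (hz : 1 ≤ z) : lama a z 1 = 1 := by
  unfold lama
  have h1 : (sqa a z).filter (1 ∣ ·) = sqa a z := by
    rw [Finset.filter_true_of_mem]
    intro k _
    exact one_dvd k
  rw [h1]
  have h2 : ∑ k ∈ sqa a z, (moebius (k / 1) : ℝ) * (moebius k) / Nat.totient k = GA a z := by
    unfold GA
    refine Finset.sum_congr rfl fun k hk => ?_
    rw [Nat.div_one, mu_sq (mem_sqa.1 hk).1]
  rw [h2, div_self (GA_pos hz).ne']
  simp

lemma lama_zero {a z d : ℕ} (hd : ¬ Nat.Coprime d a) : lama a z d = 0 := by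
  unfold lama
  have h1 : (sqa a z).filter (d ∣ ·) = ∅ := by
    rw [Finset.filter_eq_empty_iff]
    intro k hk h
    exact hd (Nat.Coprime.coprime_dvd_left h (mem_sqa.1 hk).2)
  rw [h1]
  simp

lemma sum_lama {a z k : ℕ} (hk : 1 ≤ k) :
    ∑ d ∈ (Icc 1 z).filter (k ∣ ·), lama a z d / d =
      if k ∈ sqa a z then (moebius k : ℝ) / Nat.totient k / GA a z else 0 := by
  have h1 : ∀ d ∈ (Icc 1 z).filter (k ∣ ·), lama a z d / d =
      ∑ k' ∈ sqa a z, (moebius k' : ℝ) / Nat.totient k' / GA a z *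
        (if d ∣ k' then (moebius (k' / d) : ℝ) else 0) := by
    intro d hd
    have hd0 : (d : ℝ) ≠ 0 := by
      have := (Finset.mem_Icc.1 (Finset.mem_filter.1 hd).1).1
      exact_mod_cast (by omega : d ≠ 0)
    unfold lama
    rw [mul_div_assoc, mul_comm, div_mul_cancel₀ _ hd0, Finset.sum_filter, Finset.sum_div]
    refine Finset.sum_congr rfl fun k' _ => ?_
    split_ifs <;> ring
  rw [Finset.sum_congr rfl h1, Finset.sum_comm]
  simp_rw [← Finset.mul_sum]
  have h2 : ∀ k' ∈ sqa a z, (moebius k' : ℝ) / Nat.totient k' / GA a z *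
      ∑ d ∈ (Icc 1 z).filter (k ∣ ·), (if d ∣ k' then (moebius (k' / d) : ℝ) else 0) =
      if k' = k then (moebius k : ℝ) / Nat.totient k / GA a z else 0 := by
    intro k' hk'
    have hk'' := (mem_sqf.1 (mem_sqa.1 hk').1).1
    rw [sum_mu hk hk''.1 hk''.2]
    split_ifs with h
    · rw [h, mul_one]
    · rw [mul_zero]
  rw [Finset.sum_congr rfl h2, Finset.sum_ite_eq']

/-- The main term. -/
lemma main_terma {a z : ℕ} (hz : 1 ≤ z) :
    ∑ d ∈ Icc 1 z, ∑ e ∈ Icc 1 z, lama a z d * lama a z e / (Nat.lcm d e : ℝ) = 1 / GA a z := by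
  have h1 : ∀ d ∈ Icc 1 z, ∀ e ∈ Icc 1 z, lama a z d * lama a z e / (Nat.lcm d e : ℝ) =
      ∑ k ∈ Icc 1 z, (Nat.totient k : ℝ) *
        ((if k ∣ d then lama a z d / d else 0) * (if k ∣ e then lama a z e / e else 0)) := by
    intro d hd e he
    rw [Finset.mem_Icc] at hd he
    have hd0 : (d : ℝ) ≠ 0 := by exact_mod_cast (by omega : d ≠ 0)
    have he0 : (e : ℝ) ≠ 0 := by exact_mod_cast (by omega : e ≠ 0)
    have hg0 : 0 < Nat.gcd d e := Nat.gcd_pos_of_pos_left _ (by omega)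
    have h2 : ((Nat.gcd d e : ℕ) : ℝ) * (Nat.lcm d e : ℝ) = d * e := by
      exact_mod_cast Nat.gcd_mul_lcm d e
    have hl0 : (Nat.lcm d e : ℝ) ≠ 0 := by
      intro h0
      rw [h0, mul_zero] at h2
      exact mul_ne_zero hd0 he0 h2.symm
    have h3 : ((Nat.gcd d e : ℕ) : ℝ) = ∑ k ∈ Icc 1 z,
        (Nat.totient k : ℝ) * ((if k ∣ d then 1 else 0) * (if k ∣ e then 1 else 0)) := by
      have h4 : (Nat.gcd d e).divisors = (Icc 1 z).filter fun k => k ∣ d ∧ k ∣ e := by
        ext k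
        rw [Nat.mem_divisors, Finset.mem_filter, Finset.mem_Icc, Nat.dvd_gcd_iff]
        constructor
        · rintro ⟨⟨h5, h6⟩, _⟩
          exact ⟨⟨Nat.pos_of_dvd_of_pos h5 (by omega), (Nat.le_of_dvd (by omega) h5).trans hd.2⟩,
            h5, h6⟩
        · rintro ⟨_, h5, h6⟩
          exact ⟨⟨h5, h6⟩, hg0.ne'⟩
      conv_lhs => rw [← Nat.sum_totient (Nat.gcd d e)]
      rw [h4, Finset.sum_filter]
      push_cast
      refine Finset.sum_congr rfl fun k _ => ?_
      by_cases h5 : k ∣ d <;> by_cases h6 : k ∣ e <;> simp [h5, h6]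
    have h5 : lama a z d * lama a z e / (Nat.lcm d e : ℝ) =
        ((Nat.gcd d e : ℕ) : ℝ) * (lama a z d / d * (lama a z e / e)) := by
      rw [div_eq_iff hl0]
      field_simp
      linear_combination (-(lama a z d * lama a z e)) * h2
    rw [h5, h3, Finset.sum_mul]
    refine Finset.sum_congr rfl fun k _ => ?_
    by_cases h5 : k ∣ d <;> by_cases h6 : k ∣ e <;> simp [h5, h6]
  have h2 : ∑ d ∈ Icc 1 z, ∑ e ∈ Icc 1 z, lama a z d * lama a z e / (Nat.lcm d e : ℝ) =
      ∑ k ∈ Icc 1 z, (Nat.totient k : ℝ) *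
        (∑ d ∈ (Icc 1 z).filter (k ∣ ·), lama a z d / d) ^ 2 := by
    rw [Finset.sum_congr rfl fun d hd => Finset.sum_congr rfl fun e he => h1 d hd e he]
    rw [Finset.sum_congr rfl fun d _ => Finset.sum_comm, Finset.sum_comm]
    refine Finset.sum_congr rfl fun k _ => ?_
    simp_rw [← Finset.mul_sum]
    congr 1
    rw [sq, Finset.sum_filter, Finset.sum_mul]
  rw [h2, Finset.sum_congr rfl fun k hk => by rw [sum_lama (Finset.mem_Icc.1 hk).1]]
  have hG := GA_pos (a := a) hz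
  have h3 : ∀ k ∈ Icc 1 z, (Nat.totient k : ℝ) *
      (if k ∈ sqa a z then (moebius k : ℝ) / Nat.totient k / GA a z else 0) ^ 2 =
      if k ∈ sqa a z then 1 / (Nat.totient k : ℝ) / GA a z ^ 2 else 0 := by
    intro k _
    split_ifs with h
    · have h4 := tot_pos (mem_sqa.1 h).1
      have h5 := mu_sq (mem_sqa.1 h).1
      field_simp
      rw [sq, h5]
    · ring
  rw [Finset.sum_congr rfl h3, ← Finset.sum_filter]
  have h4 : (Icc 1 z).filter (· ∈ sqa a z) = sqa a z := by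
    ext k
    rw [Finset.mem_filter, Finset.mem_Icc]
    constructor
    · exact fun h => h.2
    · exact fun h => ⟨(mem_sqf.1 (mem_sqa.1 h).1).1, h⟩
  rw [h4, ← Finset.sum_div]
  have h5 : ∑ k ∈ sqa a z, 1 / (Nat.totient k : ℝ) = GA a z := rfl
  rw [h5]
  field_simp

lemma abs_lama {a z : ℕ} (hz : 1 ≤ z) {d : ℕ} (hd : d ≤ z) : |lama a z d| ≤ z := by
  have hG := GA_pos (a := a) hz
  unfold lama
  rw [abs_mul, abs_div, abs_of_pos hG, abs_of_nonneg (Nat.cast_nonneg d : (0 : ℝ) ≤ d)]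
  have h1 : |∑ k ∈ (sqa a z).filter (d ∣ ·),
      (moebius (k / d) : ℝ) * (moebius k) / Nat.totient k| ≤ GA a z := by
    refine (Finset.abs_sum_le_sum_abs _ _).trans ?_
    unfold GA
    refine le_trans (Finset.sum_le_sum (g := fun k => 1 / (Nat.totient k : ℝ)) fun k hk => ?_)
      (Finset.sum_le_sum_of_subset_of_nonneg (Finset.filter_subset _ _) fun k hk _ => ?_)
    · have h2 := tot_pos (mem_sqa.1 (Finset.mem_filter.1 hk).1).1
      rw [abs_div, abs_of_pos h2]
      apply div_le_div_of_nonneg_right _ h2.le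
      rw [abs_mul]
      have h3 : |(moebius (k / d) : ℝ)| ≤ 1 := by
        have := abs_moebius_le_one (n := k / d)
        exact_mod_cast this
      have h4 : |(moebius k : ℝ)| ≤ 1 := by
        have := abs_moebius_le_one (n := k)
        exact_mod_cast this
      calc _ ≤ (1 : ℝ) * 1 := mul_le_mul h3 h4 (abs_nonneg _) zero_le_one
        _ = 1 := one_mul 1
    · exact div_nonneg zero_le_one (tot_pos (mem_sqa.1 hk).1).le
  calc (d : ℝ) * _ ≤ d * 1 := by
        apply mul_le_mul_of_nonneg_left _ (Nat.cast_nonneg d)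
        rw [div_le_one hG]
        exact h1
    _ ≤ z := by rw [mul_one]; exact_mod_cast hd

lemma sum_abs_lama {a z : ℕ} (hz : 1 ≤ z) :
    ∑ d ∈ Icc 1 z, ∑ e ∈ Icc 1 z, |lama a z d * lama a z e| ≤ (z : ℝ) ^ 4 := by
  have h1 : ∀ d ∈ Icc 1 z, ∀ e ∈ Icc 1 z, |lama a z d * lama a z e| ≤ (z : ℝ) * z := by
    intro d hd e he
    rw [abs_mul]
    exact mul_le_mul (abs_lama hz (Finset.mem_Icc.1 hd).2) (abs_lama hz (Finset.mem_Icc.1 he).2)
      (abs_nonneg _) (Nat.cast_nonneg z)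
  refine (Finset.sum_le_sum fun d hd => Finset.sum_le_sum fun e he => h1 d hd e he).trans ?_
  simp only [Finset.sum_const, Nat.card_Icc, add_tsub_cancel_right, nsmul_eq_mul]
  apply le_of_eq
  ring

lemma totient_prod_primes (s : Finset ℕ) (hs : ∀ p ∈ s, p.Prime) :
    Nat.totient (∏ p ∈ s, p) = ∏ p ∈ s, (p - 1) := by
  classical
  induction s using Finset.induction_on with
  | empty => simp
  | insert q s hq ih =>
    rw [Finset.prod_insert hq, Finset.prod_insert hq, Nat.totient_mul, ih fun p hp =>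
      hs p (Finset.mem_insert_of_mem hp), Nat.totient_prime (hs q (Finset.mem_insert_self q s))]
    refine Nat.Coprime.prod_right fun p hp => ?_
    rw [Nat.coprime_primes (hs q (Finset.mem_insert_self q s))
      (hs p (Finset.mem_insert_of_mem hp))]
    rintro rfl
    exact hq hp

/-- The identity behind the comparison of the two normalising sums. -/
lemma sum_inv_totient {a : ℕ} (ha : 1 ≤ a) :
    ∑ l ∈ a.divisors.filter Squarefree, 1 / (Nat.totient l : ℝ) = a / Nat.totient a := by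
  classical
  have ha0 : a ≠ 0 := by omega
  rw [Nat.sum_divisors_filter_squarefree ha0]
  have h1 : (UniqueFactorizationMonoid.normalizedFactors a).toFinset = a.primeFactors := by
    rw [Nat.factors_eq]
    rfl
  rw [h1]
  have h2 : ∀ s ∈ a.primeFactors.powerset, 1 / (Nat.totient s.val.prod : ℝ) =
      ∏ p ∈ s, 1 / ((p : ℝ) - 1) := by
    intro s hs
    have hs' : ∀ p ∈ s, p.Prime := fun p hp =>
      Nat.prime_of_mem_primeFactors (Finset.mem_powerset.1 hs hp)
    have h3 : s.val.prod = ∏ p ∈ s, p := by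
      rw [Finset.prod_val]
      rfl
    rw [h3, totient_prod_primes s hs', Finset.prod_div_distrib, Finset.prod_const_one]
    congr 1
    rw [Nat.cast_prod]
    refine Finset.prod_congr rfl fun p hp => ?_
    rw [Nat.cast_sub (hs' p hp).one_le, Nat.cast_one]
  rw [Finset.sum_congr rfl h2, ← Finset.prod_one_add]
  have h4 : (Nat.totient a : ℝ) = a * ∏ p ∈ a.primeFactors, (1 - (p : ℝ)⁻¹) := by
    have h6 := Nat.totient_eq_mul_prod_factors a
    have h7 : ((Nat.totient a : ℚ) : ℝ) =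
        ((a * ∏ p ∈ a.primeFactors, (1 - (p : ℚ)⁻¹) : ℚ) : ℝ) := by
      rw [h6]
    push_cast at h7
    exact h7
  have h5 : ∏ p ∈ a.primeFactors, (1 + 1 / ((p : ℝ) - 1)) =
      (∏ p ∈ a.primeFactors, (1 - (p : ℝ)⁻¹))⁻¹ := by
    rw [← Finset.prod_inv_distrib]
    refine Finset.prod_congr rfl fun p hp => ?_
    have hp1 : (1 : ℝ) < p := by exact_mod_cast (Nat.prime_of_mem_primeFactors hp).one_lt
    have hp2 : (p : ℝ) - 1 ≠ 0 := by linarith
    have hp3 : (p : ℝ) ≠ 0 := by linarith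
    have hp4 : 1 - (p : ℝ)⁻¹ ≠ 0 := by
      have h8 : (p : ℝ)⁻¹ < 1 := inv_lt_one_of_one_lt₀ hp1
      linarith
    field_simp
    ring
  have haR : (a : ℝ) ≠ 0 := by exact_mod_cast ha0
  rw [h5, h4, div_mul_eq_div_div, div_self haR, one_div]

lemma GG_le {a z : ℕ} (ha : 1 ≤ a) : GG z ≤ a / Nat.totient a * GA a z := by
  classical
  rw [← sum_inv_totient ha]
  unfold GG GA
  rw [Finset.sum_mul_sum, ← Finset.sum_product']
  have h1 : ∀ k ∈ sqf z, Nat.gcd k a * (k / Nat.gcd k a) = k := fun k hk =>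
    Nat.mul_div_cancel' (Nat.gcd_dvd_left k a)
  have h2 : ∀ k ∈ sqf z, Nat.Coprime (Nat.gcd k a) (k / Nat.gcd k a) := by
    intro k hk
    have h3 := (mem_sqf.1 hk).2
    rw [← h1 k hk] at h3
    exact Nat.coprime_of_squarefree_mul h3
  have h4 : ∀ k ∈ sqf z, (Nat.gcd k a, k / Nat.gcd k a) ∈
      (a.divisors.filter Squarefree) ×ˢ sqa a z := by
    intro k hk
    have hk' := mem_sqf.1 hk
    rw [Finset.mem_product, Finset.mem_filter, Nat.mem_divisors, mem_sqa, mem_sqf]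
    have h5 : k / Nat.gcd k a ∣ k := Nat.div_dvd_of_dvd (Nat.gcd_dvd_left k a)
    refine ⟨⟨⟨Nat.gcd_dvd_right k a, by omega⟩,
      hk'.2.squarefree_of_dvd (Nat.gcd_dvd_left k a)⟩, ⟨⟨?_, ?_⟩,
      hk'.2.squarefree_of_dvd h5⟩, ?_⟩
    · exact Nat.pos_of_dvd_of_pos h5 (by omega)
    · exact (Nat.le_of_dvd (by omega) h5).trans hk'.1.2
    · have h6 : Nat.Coprime (k / Nat.gcd k a) (a / Nat.gcd k a) :=
        Nat.coprime_div_gcd_div_gcd (Nat.gcd_pos_of_pos_left _ (by omega))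
      have h7 := Nat.Coprime.mul_right h6 (h2 k hk).symm
      rwa [Nat.div_mul_cancel (Nat.gcd_dvd_right k a)] at h7
  have h8 : ∑ k ∈ sqf z, 1 / (Nat.totient k : ℝ) =
      ∑ x ∈ (sqf z).image (fun k => (Nat.gcd k a, k / Nat.gcd k a)),
        1 / (Nat.totient x.1 : ℝ) * (1 / (Nat.totient x.2 : ℝ)) := by
    rw [Finset.sum_image]
    · refine Finset.sum_congr rfl fun k hk => ?_
      simp only
      conv_lhs => rw [← h1 k hk, Nat.totient_mul (h2 k hk)]
      push_cast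
      rw [one_div_mul_one_div]
    · intro k hk k' hk' h
      simp only [Prod.mk.injEq] at h
      calc k = Nat.gcd k a * (k / Nat.gcd k a) := (h1 k hk).symm
        _ = Nat.gcd k' a * (k' / Nat.gcd k' a) := by rw [h.2, h.1]
        _ = k' := h1 k' hk'
  rw [h8]
  apply Finset.sum_le_sum_of_subset_of_nonneg
  · intro x hx
    obtain ⟨k, hk, rfl⟩ := Finset.mem_image.1 hx
    exact h4 k hk
  · intro x _ _
    positivity

/-- The count of the numbers of a residue class which are divisible by `D`. -/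
lemma card_class {a r x t D : ℕ} (ha : 1 ≤ a) (hD : 1 ≤ D) (hDa : Nat.Coprime D a)
    (hxt : x ≤ t) :
    |∑ _n ∈ ((Ioc x t).filter (· ≡ r [MOD a])).filter (D ∣ ·), (1 : ℝ) -
      ((t : ℝ) - x) / a / D| ≤ 2 := by
  set c : ℕ := (Nat.chineseRemainder hDa 0 r : ℕ) with hc
  have hc1 : c ≡ 0 [MOD D] := (Nat.chineseRemainder hDa 0 r).2.1
  have hc2 : c ≡ r [MOD a] := (Nat.chineseRemainder hDa 0 r).2.2
  have h1 : ((Ioc x t).filter (· ≡ r [MOD a])).filter (D ∣ ·) =
      (Ioc x t).filter (· ≡ c [MOD D * a]) := by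
    ext n
    simp only [Finset.mem_filter]
    rw [← Nat.modEq_and_modEq_iff_modEq_mul hDa, ← Nat.modEq_zero_iff_dvd]
    constructor
    · rintro ⟨⟨h2, h3⟩, h4⟩
      exact ⟨h2, h4.trans hc1.symm, h3.trans hc2.symm⟩
    · rintro ⟨h2, h3, h4⟩
      exact ⟨⟨h2, h4.trans hc2⟩, h3.trans hc1⟩
  have hDa0 : 0 < D * a := Nat.mul_pos hD ha
  have h2 := Nat.Ioc_filter_modEq_card x t hDa0 c
  have haR : (0 : ℝ) < a := by exact_mod_cast ha
  have hDR : (0 : ℝ) < D := by exact_mod_cast hD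
  have hm0 : (0 : ℚ) < ((D * a : ℕ) : ℚ) := by exact_mod_cast hDa0
  have hle : ((x : ℚ) - c) / ((D * a : ℕ) : ℚ) ≤ ((t : ℚ) - c) / ((D * a : ℕ) : ℚ) := by
    apply div_le_div_of_nonneg_right _ hm0.le
    have : (x : ℚ) ≤ t := by exact_mod_cast hxt
    linarith
  have h3 : ⌊((x : ℚ) - c) / ((D * a : ℕ) : ℚ)⌋ ≤ ⌊((t : ℚ) - c) / ((D * a : ℕ) : ℚ)⌋ :=
    Int.floor_le_floor hle
  rw [max_eq_left (by linarith)] at h2
  have h4 := Int.floor_le (((x : ℚ) - c) / ((D * a : ℕ) : ℚ))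
  have h5 := Int.lt_floor_add_one (((x : ℚ) - c) / ((D * a : ℕ) : ℚ))
  have h6 := Int.floor_le (((t : ℚ) - c) / ((D * a : ℕ) : ℚ))
  have h7 := Int.lt_floor_add_one (((t : ℚ) - c) / ((D * a : ℕ) : ℚ))
  have h8 : (((Ioc x t).filter (· ≡ c [MOD D * a])).card : ℚ) =
      (⌊((t : ℚ) - c) / ((D * a : ℕ) : ℚ)⌋ : ℚ) - (⌊((x : ℚ) - c) / ((D * a : ℕ) : ℚ)⌋ : ℚ) := by
    exact_mod_cast h2
  have h9 : |(((Ioc x t).filter (· ≡ c [MOD D * a])).card : ℚ) -
      ((t : ℚ) - x) / a / D| ≤ 2 := by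
    have h10 : ((t : ℚ) - x) / a / D =
        ((t : ℚ) - c) / ((D * a : ℕ) : ℚ) - ((x : ℚ) - c) / ((D * a : ℕ) : ℚ) := by
      push_cast
      rw [div_div, mul_comm (a : ℚ)]
      ring
    rw [h10, h8, abs_le]
    constructor <;> linarith
  have h10 : |(((Ioc x t).filter (· ≡ c [MOD D * a])).card : ℝ) -
      ((t : ℝ) - x) / a / D| ≤ 2 := by
    have h11 := (Rat.cast_le (K := ℝ)).2 h9
    push_cast at h11
    exact h11
  rw [h1, Finset.sum_const, nsmul_eq_mul, mul_one]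
  exact h10

/-- ROW S (Selberg sieve in a residue class, with weights supported on numbers coprime to `a`). -/
theorem bt_ap {a r x t z : ℕ} (ha : 1 ≤ a) (hr : Nat.Coprime r a) (hz : 1 ≤ z) (hxt : x ≤ t) :
    (((Ioc x t).filter (fun p => p.Prime ∧ z < p ∧ p ≡ r [MOD a])).card : ℝ) ≤
      ((t : ℝ) - x) / (Nat.totient a * Real.log (z + 1)) + 2 * (z : ℝ) ^ 4 := by
  classical
  have haR : (0 : ℝ) < a := by exact_mod_cast ha
  have hφ : (0 : ℝ) < Nat.totient a := by exact_mod_cast Nat.totient_pos.2 ha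
  have hd : (0 : ℝ) ≤ (t : ℝ) - x := by
    have : (x : ℝ) ≤ t := by exact_mod_cast hxt
    linarith
  have hGA := GA_pos (a := a) hz
  have hlog : 0 < Real.log ((z : ℝ) + 1) := by
    apply Real.log_pos
    have : (1 : ℝ) ≤ z := by exact_mod_cast hz
    linarith
  have h1 : (((Ioc x t).filter (fun p => p.Prime ∧ z < p ∧ p ≡ r [MOD a])).card : ℝ) ≤
      ∑ n ∈ (Ioc x t).filter (· ≡ r [MOD a]),
        (∑ d ∈ (Icc 1 z).filter (· ∣ n), lama a z d) ^ 2 := by
    have h2 : (((Ioc x t).filter (fun p => p.Prime ∧ z < p ∧ p ≡ r [MOD a])).card : ℝ) =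
        ∑ n ∈ (Ioc x t).filter (fun p => p.Prime ∧ z < p ∧ p ≡ r [MOD a]),
          (∑ d ∈ (Icc 1 z).filter (· ∣ n), lama a z d) ^ 2 := by
      rw [Finset.card_eq_sum_ones, Nat.cast_sum]
      refine Finset.sum_congr rfl fun p hp => ?_
      obtain ⟨_, hp1, hp2, _⟩ := Finset.mem_filter.1 hp
      have h3 : (Icc 1 z).filter (· ∣ p) = {1} := by
        ext d
        rw [Finset.mem_filter, Finset.mem_Icc, Finset.mem_singleton]
        constructor
        · rintro ⟨h4, h5⟩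
          rcases (Nat.dvd_prime hp1).1 h5 with h6 | h6
          · exact h6
          · omega
        · rintro rfl
          exact ⟨⟨le_refl _, hz⟩, one_dvd p⟩
      rw [h3, Finset.sum_singleton, lama_one hz]
      norm_num
    rw [h2]
    apply Finset.sum_le_sum_of_subset_of_nonneg
    · intro p hp
      obtain ⟨h3, _, _, h4⟩ := Finset.mem_filter.1 hp
      exact Finset.mem_filter.2 ⟨h3, h4⟩
    · intro n _ _
      positivity
  refine h1.trans ?_
  have h2 : ∑ n ∈ (Ioc x t).filter (· ≡ r [MOD a]),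
      (∑ d ∈ (Icc 1 z).filter (· ∣ n), lama a z d) ^ 2 =
      ∑ d ∈ Icc 1 z, ∑ e ∈ Icc 1 z, lama a z d * lama a z e *
        ∑ n ∈ ((Ioc x t).filter (· ≡ r [MOD a])).filter (Nat.lcm d e ∣ ·), (1 : ℝ) := by
    have h3 : ∀ n ∈ (Ioc x t).filter (· ≡ r [MOD a]),
        (∑ d ∈ (Icc 1 z).filter (· ∣ n), lama a z d) ^ 2 =
        ∑ d ∈ Icc 1 z, ∑ e ∈ Icc 1 z, lama a z d * lama a z e *
          (if Nat.lcm d e ∣ n then 1 else 0) := by
      intro n _
      rw [sq, Finset.sum_filter, Finset.sum_mul_sum]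
      refine Finset.sum_congr rfl fun d _ => Finset.sum_congr rfl fun e _ => ?_
      by_cases h5 : d ∣ n <;> by_cases h6 : e ∣ n <;> simp [h5, h6, Nat.lcm_dvd_iff]
    rw [Finset.sum_congr rfl h3, Finset.sum_comm]
    refine Finset.sum_congr rfl fun d _ => ?_
    rw [Finset.sum_comm]
    refine Finset.sum_congr rfl fun e _ => ?_
    rw [← Finset.mul_sum, ← Finset.sum_filter]
  rw [h2]
  have h3 : ∀ d ∈ Icc 1 z, ∀ e ∈ Icc 1 z, lama a z d * lama a z e *
      ∑ n ∈ ((Ioc x t).filter (· ≡ r [MOD a])).filter (Nat.lcm d e ∣ ·), (1 : ℝ) ≤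
      ((t : ℝ) - x) / a * (lama a z d * lama a z e / (Nat.lcm d e : ℝ)) +
        2 * |lama a z d * lama a z e| := by
    intro d hd e he
    rw [Finset.mem_Icc] at hd he
    by_cases hda : Nat.Coprime d a
    swap
    · rw [lama_zero hda]
      simp
    by_cases hea : Nat.Coprime e a
    swap
    · rw [lama_zero hea]
      simp
    have h3 := card_class (r := r) ha (D := Nat.lcm d e) (Nat.lcm_pos (by omega) (by omega))
      (Nat.Coprime.coprime_dvd_left (Nat.lcm_dvd_mul d e) (Nat.Coprime.mul_left hda hea)) hxt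
    have h4 : lama a z d * lama a z e *
        ∑ n ∈ ((Ioc x t).filter (· ≡ r [MOD a])).filter (Nat.lcm d e ∣ ·), (1 : ℝ) =
        ((t : ℝ) - x) / a * (lama a z d * lama a z e / (Nat.lcm d e : ℝ)) +
          lama a z d * lama a z e *
          (∑ n ∈ ((Ioc x t).filter (· ≡ r [MOD a])).filter (Nat.lcm d e ∣ ·), (1 : ℝ) -
            ((t : ℝ) - x) / a / (Nat.lcm d e : ℝ)) := by
      ring
    rw [h4]
    have h5 := le_abs_self (lama a z d * lama a z e *
      (∑ n ∈ ((Ioc x t).filter (· ≡ r [MOD a])).filter (Nat.lcm d e ∣ ·), (1 : ℝ) -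
        ((t : ℝ) - x) / a / (Nat.lcm d e : ℝ)))
    rw [abs_mul] at h5
    have h6 := mul_le_mul_of_nonneg_left h3 (abs_nonneg (lama a z d * lama a z e))
    linarith
  refine (Finset.sum_le_sum fun d hd => Finset.sum_le_sum fun e he => h3 d hd e he).trans ?_
  simp_rw [Finset.sum_add_distrib, ← Finset.mul_sum]
  rw [main_terma hz]
  have h7 := sum_abs_lama (a := a) hz
  have h8 : ((t : ℝ) - x) / a * (1 / GA a z) ≤
      ((t : ℝ) - x) / (Nat.totient a * Real.log (z + 1)) := by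
    rw [div_mul_div_comm, mul_one]
    apply div_le_div_of_nonneg_left hd (mul_pos hφ hlog)
    have h9 := (log_le_GG z).trans (GG_le (z := z) ha)
    calc (Nat.totient a : ℝ) * Real.log (z + 1) ≤
        Nat.totient a * (a / Nat.totient a * GA a z) := mul_le_mul_of_nonneg_left h9 hφ.le
      _ = a * GA a z := by
          field_simp
  linarith

end Pool.Agent.Helper45.SQ
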