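import Mathlib

/-!
# A lower bound for the totient (helper23)
-/

set_option autoImplicit false

namespace Pool.Agent.Helper45.SQ

/-- ROW T. -/
theorem totient_ge {a : ℕ} (ha : 1 ≤ a) : (a : ℝ) ≤ Nat.totient a * a.divisors.card := by
  have h1 : a ≤ a.divisors.card * Nat.totient a := by
    calc a = ∑ m ∈ a.divisors, Nat.totient m := (Nat.sum_totient a).symm
      _ ≤ ∑ m ∈ a.divisors, Nat.totient a := by
          refine Finset.sum_le_sum fun m hm => ?_
          exact Nat.le_of_dvd (Nat.totient_pos.2 (by omega))
            (Nat.totient_dvd_of_dvd (Nat.dvd_of_mem_divisors hm))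
      _ = a.divisors.card * Nat.totient a := by rw [Finset.sum_const, smul_eq_mul]
  rw [mul_comm]
  exact_mod_cast h1

end Pool.Agent.Helper45.SQ
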