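import Pool.Agent.Helper45.SQ.U1
import Pool.Agent.Helper45.SQ.T
import Pool.Agent.Helper73.RK.DivBound

/-!
# The squares of the units are equidistributed (helper23)
-/

set_option autoImplicit false

namespace Pool.Agent.Helper45.SQ

open Finset

/-- ROW U2 (the squares of the units are equidistributed on the scale `1 / H`). -/
theorem unit_arc {H : ℕ} (hH : 1 ≤ H) : ∃ A : ℕ, ∀ a : ℕ, A ≤ a → ∀ (_ : NeZero a) (u : (ZMod a)ˣ),
    ∑ r : (ZMod a)ˣ, ‖∑ j ∈ range H,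
      (ZMod.stdAddChar (N := a) ((j : ZMod a) * u * (r : ZMod a) ^ 2) : ℂ)‖ ^ 2 ≤
      2 * H * Nat.totient a := by
  classical
  obtain ⟨C, hC1, hC⟩ := Pool.Agent.Helper73.RK.card_divisors_pow_le 8
  refine ⟨4 * H ^ 6 * C, fun a haA hne u => ?_⟩
  have ha : a ≠ 0 := NeZero.ne a
  have ha1 : 1 ≤ a := Nat.one_le_iff_ne_zero.2 ha
  set τ : ℝ := (a.divisors.card : ℝ) with hτ
  have hτ0 : 0 ≤ τ := by positivity
  -- the bound for one off-diagonal term
  have hoff : ∀ i ∈ range H, ∀ j ∈ range H, i ≠ j →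
      ‖∑ r : (ZMod a)ˣ, (ZMod.stdAddChar (N := a)
        (((i : ZMod a) - j) * u * (r : ZMod a) ^ 2) : ℂ)‖ ≤ τ * Real.sqrt (2 * H * a) := by
    intro i hi j hj hij
    rw [Finset.mem_range] at hi hj
    rcases lt_or_gt_of_ne hij with h | h
    · have h1 := unit_sum (a := a) (h := j - i) (by omega) (-u)
      have h2 : ((i : ZMod a) - j) * u = ((j - i : ℕ) : ZMod a) * ((-u : (ZMod a)ˣ) : ZMod a) := by
        rw [Nat.cast_sub h.le, Units.val_neg]
        ring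
      rw [h2]
      refine h1.trans ?_
      gcongr
      exact_mod_cast (by omega : j - i ≤ H)
    · have h1 := unit_sum (a := a) (h := i - j) (by omega) u
      have h2 : ((i : ZMod a) - j) * u = ((i - j : ℕ) : ZMod a) * (u : ZMod a) := by
        rw [Nat.cast_sub h.le]
      rw [h2]
      refine h1.trans ?_
      gcongr
      exact_mod_cast (by omega : i - j ≤ H)
  -- expansion of the square
  have hexp : ((∑ r : (ZMod a)ˣ, ‖∑ j ∈ range H,
      (ZMod.stdAddChar (N := a) ((j : ZMod a) * u * (r : ZMod a) ^ 2) : ℂ)‖ ^ 2 : ℝ) : ℂ) =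
      ∑ i ∈ range H, ∑ j ∈ range H, ∑ r : (ZMod a)ˣ, (ZMod.stdAddChar (N := a)
        (((i : ZMod a) - j) * u * (r : ZMod a) ^ 2) : ℂ) := by
    push_cast
    have h1 : ∀ r : (ZMod a)ˣ, ((‖∑ j ∈ range H,
        (ZMod.stdAddChar (N := a) ((j : ZMod a) * u * (r : ZMod a) ^ 2) : ℂ)‖ : ℂ)) ^ 2 =
        ∑ i ∈ range H, ∑ j ∈ range H, (ZMod.stdAddChar (N := a)
          (((i : ZMod a) - j) * u * (r : ZMod a) ^ 2) : ℂ) := by
      intro r
      rw [← Complex.mul_conj', map_sum, Finset.sum_mul_sum]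
      refine Finset.sum_congr rfl fun i _ => Finset.sum_congr rfl fun j _ => ?_
      rw [← AddChar.map_neg_eq_conj, ← AddChar.map_add_eq_mul]
      congr 1
      ring
    rw [Finset.sum_congr rfl fun r _ => h1 r, Finset.sum_comm]
    refine Finset.sum_congr rfl fun i _ => ?_
    rw [Finset.sum_comm]
  have hnorm : (∑ r : (ZMod a)ˣ, ‖∑ j ∈ range H,
      (ZMod.stdAddChar (N := a) ((j : ZMod a) * u * (r : ZMod a) ^ 2) : ℂ)‖ ^ 2 : ℝ) =
      ‖∑ i ∈ range H, ∑ j ∈ range H, ∑ r : (ZMod a)ˣ, (ZMod.stdAddChar (N := a)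
        (((i : ZMod a) - j) * u * (r : ZMod a) ^ 2) : ℂ)‖ := by
    rw [← hexp, Complex.norm_real, Real.norm_of_nonneg]
    positivity
  have hbound : (∑ r : (ZMod a)ˣ, ‖∑ j ∈ range H,
      (ZMod.stdAddChar (N := a) ((j : ZMod a) * u * (r : ZMod a) ^ 2) : ℂ)‖ ^ 2 : ℝ) ≤
      ∑ i ∈ range H, ((Nat.totient a : ℝ) + ∑ j ∈ range H, τ * Real.sqrt (2 * H * a)) := by
    rw [hnorm]
    refine (norm_sum_le _ _).trans (Finset.sum_le_sum fun i hi => ?_)
    refine (norm_sum_le _ _).trans ?_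
    rw [← Finset.sum_erase_add _ _ hi]
    have h2 : ‖∑ r : (ZMod a)ˣ, (ZMod.stdAddChar (N := a)
        (((i : ZMod a) - i) * u * (r : ZMod a) ^ 2) : ℂ)‖ = (Nat.totient a : ℝ) := by
      simp [ZMod.card_units_eq_totient]
    have h3 : ∑ j ∈ (range H).erase i, ‖∑ r : (ZMod a)ˣ, (ZMod.stdAddChar (N := a)
        (((i : ZMod a) - j) * u * (r : ZMod a) ^ 2) : ℂ)‖ ≤
        ∑ j ∈ range H, τ * Real.sqrt (2 * H * a) := by
      calc ∑ j ∈ (range H).erase i, ‖∑ r : (ZMod a)ˣ, (ZMod.stdAddChar (N := a)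
            (((i : ZMod a) - j) * u * (r : ZMod a) ^ 2) : ℂ)‖
          ≤ ∑ j ∈ (range H).erase i, τ * Real.sqrt (2 * H * a) := by
            refine Finset.sum_le_sum fun j hj => ?_
            rw [Finset.mem_erase] at hj
            exact hoff i hi j hj.2 (Ne.symm hj.1)
        _ ≤ ∑ j ∈ range H, τ * Real.sqrt (2 * H * a) := by
            refine Finset.sum_le_sum_of_subset_of_nonneg (Finset.erase_subset _ _) fun j _ _ => ?_
            positivity
    rw [h2]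
    linarith
  refine hbound.trans ?_
  rw [Finset.sum_const, Finset.sum_const, Finset.card_range, nsmul_eq_mul, nsmul_eq_mul]
  -- the numerical inequality
  have hφ : (a : ℝ) ≤ Nat.totient a * τ := totient_ge ha1
  have hφ0 : (0 : ℝ) ≤ Nat.totient a := by positivity
  have hτ1 : 1 ≤ τ := by
    have : 1 ≤ a.divisors.card := Finset.card_pos.2 ⟨1, Nat.one_mem_divisors.2 ha⟩
    rw [hτ]
    exact_mod_cast this
  have hH0 : (1 : ℝ) ≤ H := by exact_mod_cast hH
  have ha0 : (1 : ℝ) ≤ a := by exact_mod_cast ha1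
  have hkey : (H : ℝ) * (τ * Real.sqrt (2 * H * a)) ≤ Nat.totient a := by
    have h8 : τ ^ 8 ≤ C * a := by
      have := hC a ha
      rw [hτ]
      exact_mod_cast this
    have hCa : 4 * (H : ℝ) ^ 6 * C ≤ a := by exact_mod_cast haA
    have h9 : 2 * (H : ℝ) ^ 3 * τ ^ 4 ≤ a := by
      apply le_of_sq_le_sq _ (by linarith)
      calc (2 * (H : ℝ) ^ 3 * τ ^ 4) ^ 2 = 4 * (H : ℝ) ^ 6 * τ ^ 8 := by ring
        _ ≤ 4 * (H : ℝ) ^ 6 * (C * a) := by gcongr
        _ = (4 * (H : ℝ) ^ 6 * C) * a := by ring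
        _ ≤ a * a := by gcongr
        _ = (a : ℝ) ^ 2 := by ring
    have h10 : (H : ℝ) * (τ * Real.sqrt (2 * H * a)) * τ ≤ a := by
      apply le_of_sq_le_sq _ (by linarith)
      calc ((H : ℝ) * (τ * Real.sqrt (2 * H * a)) * τ) ^ 2
          = (H : ℝ) ^ 2 * τ ^ 4 * (Real.sqrt (2 * H * a)) ^ 2 := by ring
        _ = (H : ℝ) ^ 2 * τ ^ 4 * (2 * H * a) := by rw [Real.sq_sqrt (by positivity)]
        _ = (2 * (H : ℝ) ^ 3 * τ ^ 4) * a := by ring
        _ ≤ a * a := by gcongr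
        _ = (a : ℝ) ^ 2 := by ring
    have h11 : (H : ℝ) * (τ * Real.sqrt (2 * H * a)) * τ ≤ Nat.totient a * τ := h10.trans hφ
    exact le_of_mul_le_mul_right h11 (by linarith)
  nlinarith [hkey, hH0, hφ0]

end Pool.Agent.Helper45.SQ
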