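import Pool.Agent.Helper45.SQ.Defs
import Pool.Agent.Helper45.SQ.S
import Pool.Agent.Helper45.SQ.U2

/-!
# Squares of primes below the Frobenius number: row R2 (small modulus)
-/

set_option autoImplicit false

namespace Pool.Agent.Helper45.SQ

open Finset

/-- The sum over the primes, by residue classes. -/
theorem range2_aux {H z a x t : ℕ} [NeZero a] (hz : 1 ≤ z) (hxt : x ≤ t) (u : (ZMod a)ˣ)
    (harc : ∑ r : (ZMod a)ˣ, ‖∑ j ∈ range H,
      (ZMod.stdAddChar (N := a) ((j : ZMod a) * u * (r : ZMod a) ^ 2) : ℂ)‖ ^ 2 ≤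
      2 * H * Nat.totient a) :
    ∑ p ∈ (Ioc x t).filter (fun p => p.Prime ∧ z < p), ‖∑ j ∈ range H,
      (ZMod.stdAddChar (N := a) ((j : ZMod a) * u * (p : ZMod a) ^ 2) : ℂ)‖ ^ 2 ≤
      2 * H * (((t : ℝ) - x) / Real.log (z + 1)) + 4 * H * (z : ℝ) ^ 4 * a + (H : ℝ) ^ 2 * a := by
  classical
  have ha0 : a ≠ 0 := NeZero.ne a
  have ha1 : 1 ≤ a := Nat.one_le_iff_ne_zero.2 ha0
  set P := (Ioc x t).filter (fun p => p.Prime ∧ z < p) with hP
  set G : ℕ → ℝ := fun p => ‖∑ j ∈ range H,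
      (ZMod.stdAddChar (N := a) ((j : ZMod a) * u * (p : ZMod a) ^ 2) : ℂ)‖ ^ 2 with hG
  set g : (ZMod a)ˣ → ℝ := fun r => ‖∑ j ∈ range H,
      (ZMod.stdAddChar (N := a) ((j : ZMod a) * u * (r : ZMod a) ^ 2) : ℂ)‖ ^ 2 with hg
  have hg0 : ∀ r, 0 ≤ g r := fun r => by positivity
  have hGle : ∀ p, G p ≤ (H : ℝ) ^ 2 := by
    intro p
    apply pow_le_pow_left₀ (norm_nonneg _)
    refine (norm_sum_le _ _).trans ?_
    have h1 : ∀ j ∈ range H, ‖(ZMod.stdAddChar (N := a) ((j : ZMod a) * u * (p : ZMod a) ^ 2) : ℂ)‖ ≤ 1 :=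
      fun j _ => le_of_eq (AddChar.norm_apply _ _)
    refine (Finset.sum_le_sum h1).trans ?_
    rw [Finset.sum_const, Finset.card_range, nsmul_eq_mul, mul_one]
  have hsplit : ∑ p ∈ P, G p = ∑ p ∈ P.filter (fun p => Nat.Coprime p a), G p +
      ∑ p ∈ P.filter (fun p => ¬ Nat.Coprime p a), G p :=
    (Finset.sum_filter_add_sum_filter_not P _ _).symm
  -- the primes dividing `a`
  have h2 : ∑ p ∈ P.filter (fun p => ¬ Nat.Coprime p a), G p ≤ (H : ℝ) ^ 2 * a := by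
    refine (Finset.sum_le_sum (fun p _ => hGle p)).trans ?_
    rw [Finset.sum_const, nsmul_eq_mul, mul_comm]
    apply mul_le_mul_of_nonneg_left _ (by positivity)
    have h3 : P.filter (fun p => ¬ Nat.Coprime p a) ⊆ Ioc 0 a := by
      intro p hp
      rw [Finset.mem_filter, hP, Finset.mem_filter] at hp
      rw [Finset.mem_Ioc]
      have h4 : p ∣ a := by
        by_contra hcon
        exact hp.2 ((Nat.Prime.coprime_iff_not_dvd hp.1.2.1).2 hcon)
      exact ⟨hp.1.2.1.pos, Nat.le_of_dvd ha1 h4⟩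
    have h5 := Finset.card_le_card h3
    rw [Nat.card_Ioc] at h5
    exact_mod_cast h5
  -- the other primes
  set B : ℝ := ((t : ℝ) - x) / (Nat.totient a * Real.log (z + 1)) + 2 * (z : ℝ) ^ 4 with hB
  have hz1 : (1 : ℝ) ≤ z := by exact_mod_cast hz
  have hlog : 0 < Real.log ((z : ℝ) + 1) := Real.log_pos (by linarith)
  have hφ : (0 : ℝ) < Nat.totient a := by exact_mod_cast Nat.totient_pos.2 ha1
  have hxt' : (0 : ℝ) ≤ (t : ℝ) - x := by
    have : (x : ℝ) ≤ t := by exact_mod_cast hxt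
    linarith
  have hB0 : 0 ≤ B := by positivity
  have h1 : ∑ p ∈ P.filter (fun p => Nat.Coprime p a), G p ≤ B * (2 * H * Nat.totient a) := by
    set f : ℕ → (ZMod a)ˣ := fun p =>
      if h : Nat.Coprime p a then ZMod.unitOfCoprime p h else 1 with hf
    have hfp : ∀ p, Nat.Coprime p a → ((f p : (ZMod a)ˣ) : ZMod a) = p := by
      intro p hp
      rw [hf]
      simp only [dif_pos hp]
      exact ZMod.coe_unitOfCoprime p hp
    rw [← Finset.sum_fiberwise (P.filter (fun p => Nat.Coprime p a)) f]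
    have h3 : ∀ r ∈ (univ : Finset (ZMod a)ˣ),
        ∑ p ∈ (P.filter (fun p => Nat.Coprime p a)).filter (fun p => f p = r), G p ≤ B * g r := by
      intro r _
      have h4 : ∀ p ∈ (P.filter (fun p => Nat.Coprime p a)).filter (fun p => f p = r), G p = g r := by
        intro p hp
        rw [Finset.mem_filter, Finset.mem_filter] at hp
        simp only [hG, hg]
        rw [← hp.2, hfp p hp.1.2]
      rw [Finset.sum_congr rfl h4, Finset.sum_const, nsmul_eq_mul]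
      apply mul_le_mul_of_nonneg_right _ (hg0 r)
      have h5 := bt_ap (a := a) (r := (r : ZMod a).val) (x := x) (t := t) (z := z) ha1
        (ZMod.val_coe_unit_coprime r) hz hxt
      refine le_trans ?_ h5
      have h6 : (P.filter (fun p => Nat.Coprime p a)).filter (fun p => f p = r) ⊆
          (Ioc x t).filter (fun p => p.Prime ∧ z < p ∧ p ≡ (r : ZMod a).val [MOD a]) := by
        intro p hp
        rw [Finset.mem_filter, Finset.mem_filter, hP, Finset.mem_filter] at hp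
        rw [Finset.mem_filter]
        refine ⟨hp.1.1.1, hp.1.1.2.1, hp.1.1.2.2, ?_⟩
        rw [← ZMod.natCast_eq_natCast_iff, ZMod.natCast_zmod_val, ← hp.2, hfp p hp.1.2]
      exact_mod_cast Finset.card_le_card h6
    refine (Finset.sum_le_sum h3).trans ?_
    rw [← Finset.mul_sum]
    exact mul_le_mul_of_nonneg_left harc hB0
  have h3 : B * (2 * H * Nat.totient a) ≤
      2 * H * (((t : ℝ) - x) / Real.log (z + 1)) + 4 * H * (z : ℝ) ^ 4 * a := by
    have h4 : (Nat.totient a : ℝ) ≤ a := by exact_mod_cast Nat.totient_le a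
    have h5 : ((t : ℝ) - x) / (Nat.totient a * Real.log (z + 1)) * (2 * H * Nat.totient a) =
        2 * H * (((t : ℝ) - x) / Real.log (z + 1)) := by
      field_simp
    rw [hB, add_mul, h5]
    have h6 : 2 * (z : ℝ) ^ 4 * (2 * H * Nat.totient a) ≤ 4 * H * (z : ℝ) ^ 4 * a := by
      have h7 : (0 : ℝ) ≤ 4 * H * (z : ℝ) ^ 4 := by positivity
      calc 2 * (z : ℝ) ^ 4 * (2 * H * Nat.totient a) = 4 * H * (z : ℝ) ^ 4 * Nat.totient a := by ring
        _ ≤ _ := mul_le_mul_of_nonneg_left h4 h7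
    linarith
  have h4 : ∑ p ∈ P, G p ≤ 2 * H * (((t : ℝ) - x) / Real.log (z + 1)) + 4 * H * (z : ℝ) ^ 4 * a +
      (H : ℝ) ^ 2 * a := by
    rw [hsplit]
    linarith
  exact h4

/-- ROW R2 (rows S and U2; `a` is small compared with the interval). -/
theorem range2 {H : ℕ} (hH : 1 ≤ H) : ∃ N₀ : ℕ, ∀ z a x t : ℕ, N₀ ≤ z → N₀ ≤ a → a ^ 4 ≤ t →
    z ^ 100 ≤ t → x ≤ t → ∀ (_ : NeZero a) (u : (ZMod a)ˣ),
    ∑ p ∈ (Ioc x t).filter (fun p => p.Prime ∧ z < p), ‖∑ j ∈ range H,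
      (ZMod.stdAddChar (N := a) ((j : ZMod a) * u * (p : ZMod a) ^ 2) : ℂ)‖ ^ 2 ≤
      2 * H * (((t : ℝ) - x) / Real.log (z + 1)) + (t : ℝ) / z := by
  obtain ⟨A, hA⟩ := unit_arc hH
  refine ⟨A + H + 5, fun z a x t hz ha hat hzt hxt _ u => ?_⟩
  have h1 := range2_aux (H := H) (z := z) (x := x) (t := t) (by omega) hxt u
    (hA a (by omega) inferInstance u)
  refine h1.trans ?_
  rw [add_assoc]
  have hz5 : 5 ≤ z := by omega
  have hHz : H ≤ z := by omega
  have h2 : a * z ^ 75 ≤ t := by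
    have h3 : (a * z ^ 75) ^ 4 ≤ t ^ 4 := by
      calc (a * z ^ 75) ^ 4 = a ^ 4 * (z ^ 100) ^ 3 := by ring
        _ ≤ t * t ^ 3 := Nat.mul_le_mul hat (Nat.pow_le_pow_left hzt 3)
        _ = t ^ 4 := by ring
    exact (Nat.pow_le_pow_iff_left (by norm_num)).1 h3
  have h3 : z * (4 * H * z ^ 4 + H ^ 2) ≤ z ^ 75 := by
    have h4 : 4 * H * z ^ 4 + H ^ 2 ≤ 5 * z ^ 5 := by
      have h5 : 4 * H * z ^ 4 ≤ 4 * z * z ^ 4 :=
        Nat.mul_le_mul_right _ (Nat.mul_le_mul_left _ hHz)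
      have h6 : H ^ 2 ≤ z ^ 2 := Nat.pow_le_pow_left hHz 2
      have h7 : z ^ 2 ≤ z ^ 5 := Nat.pow_le_pow_right (by omega) (by norm_num)
      calc 4 * H * z ^ 4 + H ^ 2 ≤ 4 * z * z ^ 4 + z ^ 5 := Nat.add_le_add h5 (h6.trans h7)
        _ = 5 * z ^ 5 := by ring
    calc z * (4 * H * z ^ 4 + H ^ 2) ≤ z * (z * z ^ 5) :=
          Nat.mul_le_mul_left _ (h4.trans (Nat.mul_le_mul_right _ hz5))
      _ = z ^ 7 := by ring
      _ ≤ z ^ 75 := Nat.pow_le_pow_right (by omega) (by norm_num)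
  have h4 : z * ((4 * H * z ^ 4 + H ^ 2) * a) ≤ t := by
    calc z * ((4 * H * z ^ 4 + H ^ 2) * a) = a * (z * (4 * H * z ^ 4 + H ^ 2)) := by ring
      _ ≤ a * z ^ 75 := Nat.mul_le_mul_left _ h3
      _ ≤ t := h2
  have hz0 : (0 : ℝ) < z := by exact_mod_cast (by omega : 0 < z)
  have h5 : 4 * H * (z : ℝ) ^ 4 * a + (H : ℝ) ^ 2 * a ≤ (t : ℝ) / z := by
    rw [le_div_iff₀ hz0]
    have h6 : ((z * ((4 * H * z ^ 4 + H ^ 2) * a) : ℕ) : ℝ) ≤ t := by exact_mod_cast h4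
    push_cast at h6
    linarith
  linarith

end Pool.Agent.Helper45.SQ
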