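import Pool.Agent.Helper45.SQ.P
import Pool.Agent.Helper45.SQ.R1
import Pool.Agent.Helper45.SQ.R2
import Pool.Agent.Helper45.SQ.N

/-!
# The uniform lower bound for large `a`
-/

set_option autoImplicit false

namespace Pool.Agent.Helper45.SQ

open Finset

lemma exists_root (X : ℕ) : ∃ z : ℕ, z ^ 100 ≤ X ∧ X < (z + 1) ^ 100 := by
  have hex : ∃ z : ℕ, X < (z + 1) ^ 100 :=
    ⟨X, (Nat.lt_succ_self X).trans_le (Nat.le_self_pow (by norm_num) _)⟩
  classical
  refine ⟨Nat.find hex, ?_, Nat.find_spec hex⟩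
  rcases Nat.eq_zero_or_pos (Nat.find hex) with h | h
  · rw [h]
    simp
  · have h1 := Nat.find_min hex (Nat.sub_lt h one_pos)
    have h2 : Nat.find hex - 1 + 1 = Nat.find hex := by omega
    rw [not_lt, h2] at h1
    exact h1

lemma root_ge {K X z : ℕ} (hK : K ^ 100 ≤ X) (hz : X < (z + 1) ^ 100) : K ≤ z :=
  Nat.lt_succ_iff.1 (lt_of_pow_lt_pow_left₀ 100 (Nat.zero_le _) (hK.trans_lt hz))

lemma root_le {X z : ℕ} (hz0 : 4 ≤ z) (hz : z ^ 100 ≤ X) : 4 * z ≤ X := by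
  have h1 : 4 * z ≤ z ^ 2 := by nlinarith
  have h2 : z ^ 2 ≤ z ^ 100 := Nat.pow_le_pow_right (by omega) (by norm_num)
  omega

lemma log_root {X z : ℕ} (hX : 1 ≤ X) (hz : X < (z + 1) ^ 100) :
    Real.log X ≤ 100 * Real.log ((z : ℝ) + 1) := by
  have h1 : (X : ℝ) ≤ ((z : ℝ) + 1) ^ 100 := by exact_mod_cast hz.le
  have h2 : (0 : ℝ) < X := by exact_mod_cast hX
  calc Real.log X ≤ Real.log (((z : ℝ) + 1) ^ 100) := Real.log_le_log h2 h1
    _ = _ := by rw [Real.log_pow]; norm_num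

/-- both ranges at once -/
lemma ranges {H : ℕ} (hH : 1 ≤ H) : ∃ N₀ : ℕ, ∀ z a x X : ℕ, N₀ ≤ z → N₀ ≤ a → a ≤ 2 * X →
    z ^ 100 ≤ X → x ≤ X → ∀ (_ : NeZero a) (u : (ZMod a)ˣ),
    ∑ p ∈ (Ioc x X).filter (fun p => p.Prime ∧ z < p), ‖∑ j ∈ range H,
      (ZMod.stdAddChar (N := a) ((j : ZMod a) * u * (p : ZMod a) ^ 2) : ℂ)‖ ^ 2 ≤
      2 * H * (((X : ℝ) - x) / Real.log (z + 1)) + (X : ℝ) / z := by
  obtain ⟨Z₁, hR1⟩ := range1 hH
  obtain ⟨N₂, hR2⟩ := range2 hH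
  refine ⟨Z₁ + N₂ + 1, fun z a x X hz ha haX hzX hxX i u => ?_⟩
  by_cases h : a ^ 4 ≤ X
  · exact hR2 z a x X (by omega) (by omega) h hzX hxX i u
  · have h1 : z ^ 25 ≤ a := by
      have h2 : (z ^ 25) ^ 4 ≤ a ^ 4 := by
        have h3 : (z ^ 25) ^ 4 = z ^ 100 := by ring
        rw [h3]
        exact hzX.trans (not_le.1 h).le
      exact le_of_pow_le_pow_left₀ (by norm_num) (Nat.zero_le _) h2
    refine (hR1 z a x X (by omega) h1 haX hzX hxX i u).trans ?_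
    have hz1 : 1 ≤ z := by omega
    have h3 : 0 ≤ ((X : ℝ) - x) / Real.log (z + 1) := by
      apply div_nonneg
      · have : (x : ℝ) ≤ X := by exact_mod_cast hxX
        linarith
      · apply Real.log_nonneg
        have : (1 : ℝ) ≤ z := by exact_mod_cast hz1
        linarith
    have h4 : (0 : ℝ) ≤ H := Nat.cast_nonneg H
    nlinarith [mul_nonneg h4 h3]

lemma log_small {z : ℕ} (hz : 1000000 ≤ z) : 100 * Real.log ((z : ℝ) + 1) ≤ z := by
  have hz' : (1000000 : ℝ) ≤ z := by exact_mod_cast hz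
  have hs : (1000 : ℝ) ≤ Real.sqrt (z + 1) := by
    apply Real.le_sqrt_of_sq_le
    linarith
  have hs2 : Real.sqrt ((z : ℝ) + 1) ^ 2 = z + 1 := Real.sq_sqrt (by linarith)
  have h1 : Real.log ((z : ℝ) + 1) = 2 * Real.log (Real.sqrt (z + 1)) := by
    rw [Real.log_sqrt (by linarith)]
    ring
  have h2 := Real.log_le_sub_one_of_pos (show 0 < Real.sqrt ((z : ℝ) + 1) by linarith)
  nlinarith

/-- the counting inequality -/
lemma count_le {a b x X z : ℕ} [NeZero a] (u : (ZMod a)ˣ) (hu : (u : ZMod a) * b = 1)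
    (hz : z ≤ x) (hX : X ^ 2 + a + b ≤ a * b) {H : ℕ} {B : ℝ}
    (hP : ∀ p : ℕ, x < p → p ≤ X → 6 * H * (a * b - p ^ 2) ≤ a * b)
    (hB : ∑ p ∈ (Ioc x X).filter (fun p => p.Prime ∧ z < p), ‖∑ j ∈ range H,
      (ZMod.stdAddChar (N := a) ((j : ZMod a) * u * (p : ZMod a) ^ 2) : ℂ)‖ ^ 2 ≤ B) :
    (((Ioc x X).filter Nat.Prime).card : ℝ) * ((H : ℝ) ^ 2 / 4) ≤
      (pi2 a b : ℝ) * ((H : ℝ) ^ 2 / 4) + B := by
  classical
  set S := (Ioc x X).filter Nat.Prime with hS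
  have h1 : S.card = (S.filter fun p => Rep a b (p ^ 2)).card +
      (S.filter fun p => ¬ Rep a b (p ^ 2)).card :=
    (Finset.card_filter_add_card_filter_not _).symm
  have h2 : (S.filter fun p => Rep a b (p ^ 2)).card ≤ pi2 a b := by
    unfold pi2
    apply Finset.card_le_card
    intro p hp
    rw [Finset.mem_filter, hS, Finset.mem_filter, Finset.mem_Ioc] at hp
    have h3 : p ^ 2 ≤ X ^ 2 := Nat.pow_le_pow_left hp.1.1.2 2
    rw [Finset.mem_filter, Finset.mem_range]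
    refine ⟨?_, hp.1.2, by omega, hp.2⟩
    have h4 : p < p ^ 2 := by
      have h5 := hp.1.2.two_le
      nlinarith
    omega
  have h3 : ((S.filter fun p => ¬ Rep a b (p ^ 2)).card : ℝ) * ((H : ℝ) ^ 2 / 4) ≤ B := by
    refine le_trans ?_ hB
    rw [← nsmul_eq_mul, ← Finset.sum_const]
    refine le_trans (Finset.sum_le_sum (g := fun p : ℕ => ‖∑ j ∈ range H,
      (ZMod.stdAddChar (N := a) ((j : ZMod a) * u * (p : ZMod a) ^ 2) : ℂ)‖ ^ 2) fun p hp => ?_)
      (Finset.sum_le_sum_of_subset_of_nonneg ?_ fun p _ _ => by positivity)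
    · rw [Finset.mem_filter, hS, Finset.mem_filter, Finset.mem_Ioc] at hp
      have h4 := nonrep_sum u hu hp.2 (hP p hp.1.1.1 hp.1.1.2)
      push_cast at h4
      exact h4
    · intro p hp
      rw [Finset.mem_filter, hS, Finset.mem_filter] at hp
      rw [Finset.mem_filter]
      exact ⟨hp.1.1, hp.1.2, hz.trans_lt (Finset.mem_Ioc.1 hp.1.1).1⟩
  have h4 : (S.card : ℝ) = ((S.filter fun p => Rep a b (p ^ 2)).card : ℝ) +
      ((S.filter fun p => ¬ Rep a b (p ^ 2)).card : ℝ) := by exact_mod_cast h1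
  have h5 : ((S.filter fun p => Rep a b (p ^ 2)).card : ℝ) ≤ pi2 a b := by exact_mod_cast h2
  have h6 : (0 : ℝ) ≤ (H : ℝ) ^ 2 / 4 := by positivity
  rw [h4, add_mul]
  have h7 := mul_le_mul_of_nonneg_right h5 h6
  linarith

/-- the condition of row P -/
lemma cond_P {a b X p : ℕ} (ha : 1000000 ≤ a) (hab : a < b) (hX : a * b < (X + 1) ^ 2 + a + b)
    (hXX : X ^ 2 ≤ a * b) (hp : (1 - 1 / 240000 : ℝ) * X ≤ p) (hpX : p ≤ X) :
    6 * 10000 * (a * b - p ^ 2) ≤ a * b := by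
  have hpX2 : p ^ 2 ≤ a * b := (Nat.pow_le_pow_left hpX 2).trans hXX
  have ha' : (1000000 : ℝ) ≤ a := by exact_mod_cast ha
  have hab' : (a : ℝ) < b := by exact_mod_cast hab
  have hX' : (a : ℝ) * b < ((X : ℝ) + 1) ^ 2 + a + b := by exact_mod_cast hX
  have hXX' : (X : ℝ) ^ 2 ≤ a * b := by exact_mod_cast hXX
  have hX0 : (0 : ℝ) ≤ X := Nat.cast_nonneg X
  have h1 : 1000000 * (b : ℝ) ≤ a * b := by nlinarith
  have h2 : 1000000 * (a : ℝ) ≤ a * b := by nlinarith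
  have h3 : 1000000 * (X : ℝ) ≤ a * b := by
    by_contra hc
    push Not at hc
    -- X > ab / 10^6 and X^2 <= ab, so X < 10^6 and ab < 10^12, but ab >= 10^12
    have h4 : (1000000 : ℝ) * 1000000 ≤ a * b := by nlinarith
    have h5 : (X : ℝ) < 1000000 := by
      by_contra hc2
      push Not at hc2
      nlinarith
    nlinarith
  have h4 : (1 - 4 / 1000000 : ℝ) * (a * b) ≤ (X : ℝ) ^ 2 := by
    have h5 : (1000000 : ℝ) * 1000000 ≤ a * b := by nlinarith
    nlinarith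
  have h5 : ((1 - 1 / 240000 : ℝ) * X) ^ 2 ≤ (p : ℝ) ^ 2 :=
    pow_le_pow_left₀ (by positivity) hp 2
  have h6 : (1 - 1 / 60000 : ℝ) * (a * b) ≤ (p : ℝ) ^ 2 := by
    nlinarith
  have h7 : (6 * 10000 * ((a : ℝ) * b - (p : ℝ) ^ 2)) ≤ a * b := by linarith
  have h8 : ((6 * 10000 * (a * b - p ^ 2) : ℕ) : ℝ) ≤ ((a * b : ℕ) : ℝ) := by
    rw [Nat.cast_mul, Nat.cast_sub hpX2]
    push_cast
    linarith
  exact_mod_cast h8

/-- the final arithmetic -/
lemma arith_L {X x z : ℕ} {P N s : ℝ} (hX : 1000000 ≤ X) (hz : 1000000 ≤ z)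
    (hl : Real.log X ≤ 100 * Real.log ((z : ℝ) + 1))
    (hx : (1 - 1 / 240000 : ℝ) * X ≤ x + 1)
    (hN : (1 / 240000 : ℝ) / 2 * X / Real.log X ≤ N)
    (hc : N * ((10000 : ℝ) ^ 2 / 4) ≤ P * ((10000 : ℝ) ^ 2 / 4) +
      (2 * 10000 * (((X : ℝ) - x) / Real.log (z + 1)) + (X : ℝ) / z))
    (hs : s ≤ 2 * (X / Real.log X)) :
    1 / 2400000 * s ≤ P := by
  have hX' : (1000000 : ℝ) ≤ X := by exact_mod_cast hX
  have hz' : (1000000 : ℝ) ≤ z := by exact_mod_cast hz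
  have hlX : 0 < Real.log X := Real.log_pos (by linarith)
  have hlz : 0 < Real.log ((z : ℝ) + 1) := by linarith
  have hsm := log_small hz
  set W := (X : ℝ) / Real.log X with hW
  have hW0 : 0 < W := div_pos (by linarith) hlX
  have h1 : ((X : ℝ) - x) / Real.log (z + 1) ≤ 200 / 240000 * W := by
    rw [div_le_iff₀ hlz]
    have h2 : (X : ℝ) - x ≤ 2 / 240000 * X := by linarith
    have h3 : (X : ℝ) = W * Real.log X := by
      rw [hW, div_mul_cancel₀ _ hlX.ne']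
    calc (X : ℝ) - x ≤ 2 / 240000 * X := h2
      _ = 2 / 240000 * (W * Real.log X) := by rw [← h3]
      _ ≤ 2 / 240000 * (W * (100 * Real.log ((z : ℝ) + 1))) := by gcongr
      _ = _ := by ring
  have h2 : (X : ℝ) / z ≤ W := by
    rw [div_le_iff₀ (by linarith)]
    have h3 : (X : ℝ) = W * Real.log X := by
      rw [hW, div_mul_cancel₀ _ hlX.ne']
    calc (X : ℝ) = W * Real.log X := h3
      _ ≤ W * z := by
        apply mul_le_mul_of_nonneg_left _ hW0.le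
        linarith
  have h3 : (1 / 240000 : ℝ) / 2 * W ≤ N := by
    refine le_trans (le_of_eq ?_) hN
    rw [hW]
    ring
  nlinarith

theorem large_a : ∃ c : ℝ, 0 < c ∧ ∃ A : ℕ, ∀ a b : ℕ, A ≤ a → a < b → Nat.Coprime a b →
    c * size a b ≤ (pi2 a b : ℝ) := by
  have hH : 1 ≤ 10000 := by norm_num
  obtain ⟨N₀, hR⟩ := ranges hH
  obtain ⟨X₀, hN⟩ := primes_short (η := 1 / 240000) (by norm_num) (by norm_num)
  obtain ⟨Q, hQ⟩ : ∃ Q : ℕ, (N₀ + 1000000) ^ 100 = Q := ⟨_, rfl⟩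
  refine ⟨1 / 2400000, by norm_num, Q + N₀ + X₀ + 1000001,
    fun a b hA hab hco => ?_⟩
  have ha : 1000001 ≤ a := by omega
  have haN : N₀ ≤ a := by omega
  have haQ : Q ≤ a - 1 := by omega
  have haX : X₀ ≤ a - 1 := by omega
  have i : NeZero a := ⟨by omega⟩
  -- the inverse of b
  obtain ⟨u, hu⟩ : ∃ u : (ZMod a)ˣ, (u : ZMod a) * b = 1 := by
    refine ⟨(ZMod.unitOfCoprime b hco.symm)⁻¹, ?_⟩
    have h1 := Units.inv_mul (ZMod.unitOfCoprime b hco.symm)
    rwa [ZMod.coe_unitOfCoprime] at h1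
  obtain ⟨g, hgab⟩ : ∃ g : ℕ, g + a + b = a * b := by
    refine ⟨a * b - a - b, ?_⟩
    have h1 : a + b ≤ a * b := by nlinarith
    omega
  obtain ⟨X, hX⟩ : ∃ X : ℕ, X = Nat.sqrt g := ⟨_, rfl⟩
  have hXg : X ^ 2 ≤ g := by
    rw [hX, sq]
    exact Nat.sqrt_le g
  have hXg' : g < (X + 1) ^ 2 := by
    rw [hX, sq]
    exact Nat.lt_succ_sqrt g
  have haX1 : a - 1 ≤ X := by
    rw [hX, Nat.le_sqrt]
    obtain ⟨a', rfl⟩ : ∃ a', a = a' + 1 := ⟨a - 1, by omega⟩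
    rw [Nat.add_sub_cancel]
    nlinarith
  obtain ⟨z, hz1, hz2⟩ := exists_root X
  have hzK : N₀ + 1000000 ≤ z := root_ge (by rw [hQ]; exact haQ.trans haX1) hz2
  have hzX := root_le (by omega) hz1
  have hl : 1 ≤ X → Real.log X ≤ 100 * Real.log ((z : ℝ) + 1) := fun h => log_root h hz2
  have hB' := fun (x : ℕ) (h1 : a ≤ 2 * X) (h2 : x ≤ X) =>
    hR z a x X (by clear hz1 hz2; omega) haN h1 hz1 h2 i u
  clear hz1 hz2 hQ
  obtain ⟨x, hx⟩ : ∃ x : ℕ, x = ⌊(1 - 1 / 240000 : ℝ) * X⌋₊ := ⟨_, rfl⟩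
  have hx1 : (x : ℝ) ≤ (1 - 1 / 240000 : ℝ) * X := by
    rw [hx]
    exact Nat.floor_le (by positivity)
  have hx2 : (1 - 1 / 240000 : ℝ) * X < x + 1 := by
    rw [hx]
    exact Nat.lt_floor_add_one _
  have hX6 : 1000000 ≤ X := by omega
  have hX6' : (1000000 : ℝ) ≤ X := by exact_mod_cast hX6
  have hxX : x ≤ X := by
    have : (x : ℝ) ≤ X := by linarith
    exact_mod_cast this
  have hzx : z ≤ x := by
    have h1 : (4 : ℝ) * z ≤ X := by exact_mod_cast hzX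
    have h2 : (z : ℝ) ≤ x := by linarith
    exact_mod_cast h2
  have hB := hB' x (by omega) hxX
  have hcnt := count_le (H := 10000) u hu hzx (by omega) (fun p hp hpX => by
    refine cond_P (by omega) hab (by omega) (by omega) ?_ hpX
    have h1 : ((x : ℝ) + 1) ≤ p := by exact_mod_cast hp
    linarith) hB
  have hN1 := hN x X (by omega) hx1
  refine arith_L hX6 (by omega) (hl (by omega)) hx2.le hN1 ?_ ?_
  · push_cast at hcnt
    exact hcnt
  · unfold size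
    have hg : ((a : ℝ) * b - a - b) = (g : ℝ) := by
      have : ((g : ℝ) + a + b) = a * b := by exact_mod_cast hgab
      linarith
    rw [hg]
    have h1 : Real.sqrt g ≤ 2 * X := by
      apply Real.sqrt_le_iff.2
      constructor
      · positivity
      · have h2 : (g : ℝ) < ((X : ℝ) + 1) ^ 2 := by exact_mod_cast hXg'
        nlinarith
    have h2 : Real.log X ≤ Real.log g := by
      apply Real.log_le_log (by linarith)
      have h3 : X ≤ g := by nlinarith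
      exact_mod_cast h3
    have h3 : 0 < Real.log X := Real.log_pos (by linarith)
    calc Real.sqrt g / Real.log g ≤ 2 * X / Real.log X := by
          apply div_le_div₀ (by positivity) h1 h3 h2
      _ = 2 * (X / Real.log X) := by ring

end Pool.Agent.Helper45.SQ
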