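import Pool.Agent.Helper45.SQ.L
import Pool.Agent.Helper45.SQ.F

/-!
# All pairs
-/

set_option autoImplicit false

namespace Pool.Agent.Helper45.SQ

open Finset

lemma size_nonneg {a b : ℕ} (ha : 1 < a) (hab : a < b) : 0 ≤ size a b := by
  unfold size
  apply div_nonneg (Real.sqrt_nonneg _)
  apply Real.log_nonneg
  have h1 : (2 : ℝ) ≤ a := by exact_mod_cast ha
  have h2 : (a : ℝ) + 1 ≤ b := by exact_mod_cast hab
  nlinarith

/-- fixed `a`, both cases -/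
lemma fixed_both {a : ℕ} (ha : 1 < a) : ∃ c : ℝ, 0 < c ∧ ∃ B : ℕ, ∀ b : ℕ, B ≤ b →
    Nat.Coprime a b → (¬ (a ∣ 24 ∧ a ∣ b + 1) → c * size a b ≤ (pi2 a b : ℝ)) ∧
      (a ∣ 24 → a ∣ b + 1 → pi2 a b = if a ≤ 4 then 1 else 0) := by
  obtain ⟨c, hc, B, hB⟩ := fixed_a (show 2 ≤ a from ha)
  by_cases h24 : a ∣ 24
  · obtain ⟨B', hB'⟩ := fixed_exc (show 2 ≤ a from ha) h24
    exact ⟨c, hc, B + B', fun b hb hco => ⟨hB b (by omega) hco, fun _ h => hB' b (by omega) h⟩⟩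
  · exact ⟨c, hc, B, fun b hb hco => ⟨hB b hb hco, fun h => absurd h h24⟩⟩

lemma fixed_all (A : ℕ) : ∃ c : ℝ, 0 < c ∧ ∃ B : ℕ, ∀ a b : ℕ, 1 < a → a < A → a < b → B ≤ b →
    Nat.Coprime a b → (¬ (a ∣ 24 ∧ a ∣ b + 1) → c * size a b ≤ (pi2 a b : ℝ)) ∧
      (a ∣ 24 → a ∣ b + 1 → pi2 a b = if a ≤ 4 then 1 else 0) := by
  induction A with
  | zero => exact ⟨1, one_pos, 0, fun a b _ h => absurd h (Nat.not_lt_zero a)⟩
  | succ A ih =>
    obtain ⟨c, hc, B, hB⟩ := ih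
    by_cases hA : 1 < A
    · obtain ⟨c', hc', B', hB'⟩ := fixed_both hA
      refine ⟨min c c', lt_min hc hc', B + B', fun a b ha haA hab hb hco => ?_⟩
      have hs := size_nonneg ha hab
      rcases Nat.lt_succ_iff_lt_or_eq.1 haA with h | h
      · obtain ⟨h1, h2⟩ := hB a b ha h hab (by omega) hco
        exact ⟨fun h3 => (mul_le_mul_of_nonneg_right (min_le_left _ _) hs).trans (h1 h3), h2⟩
      · subst h
        obtain ⟨h1, h2⟩ := hB' b (by omega) hco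
        exact ⟨fun h3 => (mul_le_mul_of_nonneg_right (min_le_right _ _) hs).trans (h1 h3), h2⟩
    · refine ⟨c, hc, B, fun a b ha haA hab hb hco => hB a b ha (by omega) hab hb hco⟩

/-- The dichotomy. -/
theorem main : ∃ c : ℝ, 0 < c ∧ ∃ N : ℕ, ∀ a b : ℕ, 1 < a → a < b → N ≤ b → Nat.Coprime a b →
    (¬ (a ∣ 24 ∧ a ∣ b + 1) → c * size a b ≤ (pi2 a b : ℝ)) ∧
      (a ∣ 24 → a ∣ b + 1 → pi2 a b = if a ≤ 4 then 1 else 0) := by
  obtain ⟨c, hc, A, hA⟩ := large_a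
  obtain ⟨c', hc', B, hB⟩ := fixed_all (A + 25)
  refine ⟨min c c', lt_min hc hc', B, fun a b ha hab hb hco => ?_⟩
  have hs := size_nonneg ha hab
  by_cases h : a < A + 25
  · obtain ⟨h1, h2⟩ := hB a b ha h hab hb hco
    exact ⟨fun h3 => (mul_le_mul_of_nonneg_right (min_le_right _ _) hs).trans (h1 h3), h2⟩
  · refine ⟨fun _ => (mul_le_mul_of_nonneg_right (min_le_left _ _) hs).trans
      (hA a b (by omega) hab hco), fun h24 => ?_⟩
    have := Nat.le_of_dvd (by norm_num) h24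
    omega

end Pool.Agent.Helper45.SQ
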