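import Pool.Agent.Helper45.SQ.Defs

/-!
# The phase of a number which is not representable
-/

set_option autoImplicit false

namespace Pool.Agent.Helper45.SQ

open Finset

theorem nonrep_gap {a b n : ℕ} [NeZero a] (u : (ZMod a)ˣ) (hu : (u : ZMod a) * b = 1)
    (hn : ¬ Rep a b n) : ∃ Y : ℕ, b * Y < a * b - n ∧ (u : ZMod a) * n = -(Y : ZMod a) := by
  set y := ((u : ZMod a) * n).val with hy
  have ha : 0 < a := Nat.pos_of_ne_zero (NeZero.ne a)
  have hya : y < a := ZMod.val_lt _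
  have hyc : (y : ZMod a) = (u : ZMod a) * n := ZMod.natCast_zmod_val _
  have hby : ((b * y : ℕ) : ZMod a) = (n : ZMod a) := by
    push_cast
    rw [hyc, ← mul_assoc, mul_comm (b : ZMod a), hu, one_mul]
  have hlt : n < b * y := by
    by_contra hle
    push Not at hle
    apply hn
    have h1 : b * y ≡ n [MOD a] := (ZMod.natCast_eq_natCast_iff _ _ _).1 hby
    obtain ⟨x, hx⟩ := (Nat.modEq_iff_dvd' hle).1 h1
    exact ⟨x, y, by omega⟩
  refine ⟨a - y, ?_, ?_⟩
  · have h1 : b * (a - y) = a * b - b * y := by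
      rw [Nat.mul_sub, mul_comm b a]
    rw [h1]
    have h2 : b * y ≤ a * b := by
      rw [mul_comm a b]
      exact Nat.mul_le_mul_left b hya.le
    omega
  · rw [Nat.cast_sub hya.le, ZMod.natCast_self, zero_sub, neg_neg, hyc]

theorem nonrep_sum {a b n H : ℕ} [NeZero a] (u : (ZMod a)ˣ) (hu : (u : ZMod a) * b = 1)
    (hn : ¬ Rep a b n) (hH : 6 * H * (a * b - n) ≤ a * b) :
    (H : ℝ) ^ 2 / 4 ≤
      ‖∑ j ∈ range H, (ZMod.stdAddChar (N := a) ((j : ZMod a) * u * n) : ℂ)‖ ^ 2 := by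
  obtain ⟨Y, hY, hY2⟩ := nonrep_gap u hu hn
  have ha : 0 < a := Nat.pos_of_ne_zero (NeZero.ne a)
  have ha' : (0 : ℝ) < a := by exact_mod_cast ha
  have hb : 0 < b := by
    rcases Nat.eq_zero_or_pos b with h | h
    · subst h
      simp at hY
    · exact h
  have h6 : 6 * H * Y ≤ a := by
    have h1 : 6 * H * (b * Y) ≤ a * b := (Nat.mul_le_mul_left _ hY.le).trans hH
    have h2 : 6 * H * Y * b ≤ a * b := by
      calc 6 * H * Y * b = 6 * H * (b * Y) := by ring
        _ ≤ _ := h1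
    exact Nat.le_of_mul_le_mul_right h2 hb
  have h7 : ∀ j ∈ range H, (1 : ℝ) / 2 ≤
      ((ZMod.stdAddChar (N := a) ((j : ZMod a) * u * n) : ℂ)).re := by
    intro j hj
    have hj' := Finset.mem_range.1 hj
    have h8 : (j : ZMod a) * u * n = ((-((j * Y : ℕ) : ℤ) : ℤ) : ZMod a) := by
      rw [mul_assoc, hY2]
      push_cast
      ring
    rw [h8, ZMod.stdAddChar_coe]
    have h9 : (2 * Real.pi * Complex.I * ((-((j * Y : ℕ) : ℤ) : ℤ) : ℂ) / (a : ℂ)) =
        ((-(2 * Real.pi * ((j * Y : ℕ) : ℝ) / a) : ℝ) : ℂ) * Complex.I := by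
      push_cast
      ring
    rw [h9, Complex.exp_ofReal_mul_I_re, Real.cos_neg, ← Real.cos_pi_div_three]
    apply Real.cos_le_cos_of_nonneg_of_le_pi
    · positivity
    · have := Real.pi_pos
      linarith
    · rw [div_le_div_iff₀ ha' (by norm_num)]
      have h10 : 6 * (j * Y) ≤ a := by
        calc 6 * (j * Y) ≤ 6 * (H * Y) := by gcongr
          _ = 6 * H * Y := by ring
          _ ≤ a := h6
      have h11 : (6 : ℝ) * ((j * Y : ℕ) : ℝ) ≤ a := by exact_mod_cast h10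
      have := Real.pi_pos
      nlinarith
  have h8 : (H : ℝ) / 2 ≤
      (∑ j ∈ range H, (ZMod.stdAddChar (N := a) ((j : ZMod a) * u * n) : ℂ)).re := by
    rw [Complex.re_sum]
    calc (H : ℝ) / 2 = ∑ _j ∈ range H, (1 : ℝ) / 2 := by
          rw [Finset.sum_const, Finset.card_range, nsmul_eq_mul]
          ring
      _ ≤ _ := Finset.sum_le_sum h7
  have h9 := h8.trans (Complex.re_le_norm _)
  have h10 : (0 : ℝ) ≤ (H : ℝ) / 2 := by positivity
  calc (H : ℝ) ^ 2 / 4 = ((H : ℝ) / 2) ^ 2 := by ring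
    _ ≤ _ := pow_le_pow_left₀ h10 h9 2

end Pool.Agent.Helper45.SQ
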