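import Mathlib

/-!
# Quadratic exponential sums over the units of `ZMod a` (helper23)
-/

set_option autoImplicit false

namespace Pool.Agent.Helper45.SQ

open Finset

section

variable {a : ℕ} [NeZero a]

/-- a character sum over a subgroup -/
lemma sum_char (K : AddSubgroup (ZMod a)) [Fintype K] (x : ZMod a)
    [Decidable (∀ m : K, x * (m : ZMod a) = 0)] :
    ∑ m : K, (ZMod.stdAddChar (N := a) (x * m) : ℂ) =
      if ∀ m : K, x * (m : ZMod a) = 0 then (Fintype.card K : ℂ) else 0 := by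
  classical
  set χ : AddChar K ℂ := ((ZMod.stdAddChar (N := a)).compAddMonoidHom
    ((AddMonoidHom.mulLeft x).comp K.subtype)) with hχ
  have h1 : ∀ m : K, χ m = ZMod.stdAddChar (N := a) (x * m) := fun m => rfl
  have h2 : (χ = 0) ↔ ∀ m : K, x * (m : ZMod a) = 0 := by
    constructor
    · intro h m
      have h3 : χ m = 1 := by rw [h]; rfl
      rw [h1, ← AddChar.map_zero_eq_one (ZMod.stdAddChar (N := a))] at h3
      exact ZMod.injective_stdAddChar h3
    · intro h
      ext m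
      rw [h1, h m]
      simp
  rw [← Finset.sum_congr rfl (fun m _ => h1 m), AddChar.sum_eq_ite]
  simp [h2]

/-- the square of a quadratic Gauss sum over a subgroup -/
lemma gauss_sq (K : AddSubgroup (ZMod a)) [Fintype K] (c : ZMod a)
    [DecidablePred (fun l : K => ∀ m : K, 2 * c * l * (m : ZMod a) = 0)] :
    ‖∑ m : K, (ZMod.stdAddChar (N := a) (c * (m : ZMod a) ^ 2) : ℂ)‖ ^ 2 ≤
      (Fintype.card K : ℝ) *
        (univ.filter (fun l : K => ∀ m : K, 2 * c * l * (m : ZMod a) = 0)).card := by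
  classical
  have h1 : ((‖∑ m : K, (ZMod.stdAddChar (N := a) (c * (m : ZMod a) ^ 2) : ℂ)‖ ^ 2 : ℝ) : ℂ) =
      ∑ l : K, ZMod.stdAddChar (N := a) (c * (l : ZMod a) ^ 2) *
        ∑ m : K, ZMod.stdAddChar (N := a) ((2 * c * l) * m) := by
    push_cast
    rw [← Complex.mul_conj', map_sum, Finset.sum_mul_sum, Finset.sum_comm]
    simp_rw [Finset.mul_sum]
    rw [Finset.sum_comm (s := (univ : Finset K)) (t := (univ : Finset K))
      (f := fun l m => ZMod.stdAddChar (N := a) (c * (l : ZMod a) ^ 2) *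
        ZMod.stdAddChar (N := a) ((2 * c * l) * m))]
    refine Finset.sum_congr rfl fun m _ => ?_
    rw [← Equiv.sum_comp (Equiv.addRight m)]
    refine Finset.sum_congr rfl fun l _ => ?_
    rw [← AddChar.map_neg_eq_conj, ← AddChar.map_add_eq_mul, ← AddChar.map_add_eq_mul]
    congr 1
    simp only [Equiv.coe_addRight, AddSubgroup.coe_add]
    ring
  have h2 : ‖∑ m : K, (ZMod.stdAddChar (N := a) (c * (m : ZMod a) ^ 2) : ℂ)‖ ^ 2 =
      ‖((‖∑ m : K, (ZMod.stdAddChar (N := a) (c * (m : ZMod a) ^ 2) : ℂ)‖ ^ 2 : ℝ) : ℂ)‖ := by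
    rw [Complex.norm_real, Real.norm_of_nonneg (by positivity)]
  rw [h2, h1]
  calc ‖∑ l : K, ZMod.stdAddChar (N := a) (c * (l : ZMod a) ^ 2) *
        ∑ m : K, ZMod.stdAddChar (N := a) ((2 * c * l) * m)‖
      ≤ ∑ l : K, ‖ZMod.stdAddChar (N := a) (c * (l : ZMod a) ^ 2) *
        ∑ m : K, ZMod.stdAddChar (N := a) ((2 * c * l) * m)‖ := norm_sum_le _ _
    _ = ∑ l : K, if ∀ m : K, 2 * c * l * (m : ZMod a) = 0 then (Fintype.card K : ℝ) else 0 := by
        refine Finset.sum_congr rfl fun l _ => ?_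
        rw [sum_char, norm_mul, AddChar.norm_apply, one_mul]
        split_ifs <;> simp
    _ = (Fintype.card K : ℝ) *
        (univ.filter (fun l : K => ∀ m : K, 2 * c * l * (m : ZMod a) = 0)).card := by
        rw [← Finset.sum_filter, Finset.sum_const, nsmul_eq_mul, mul_comm]

lemma mem_zmul {e : ℕ} (he : e ∣ a) (r : ZMod a) :
    r ∈ AddSubgroup.zmultiples ((e : ℕ) : ZMod a) ↔ e ∣ r.val := by
  rw [AddSubgroup.mem_zmultiples_iff]
  constructor
  · rintro ⟨k, hk⟩
    have h1 : (((k * e - r.val : ℤ)) : ZMod a) = 0 := by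
      push_cast
      rw [ZMod.natCast_zmod_val, ← hk]
      simp
    rw [ZMod.intCast_zmod_eq_zero_iff_dvd] at h1
    have h2 : (e : ℤ) ∣ k * e - r.val := (Int.natCast_dvd_natCast.2 he).trans h1
    have h3 : (e : ℤ) ∣ (r.val : ℤ) := by
      have := (Int.dvd_mul_left k e).sub h2
      simpa using this
    exact Int.natCast_dvd_natCast.1 h3
  · rintro ⟨t, ht⟩
    refine ⟨t, ?_⟩
    rw [← ZMod.natCast_zmod_val r, ht]
    push_cast
    simp [mul_comm]

lemma card_zmul {e : ℕ} (he : e ∣ a) [Fintype (AddSubgroup.zmultiples ((e : ℕ) : ZMod a))] :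
    Fintype.card (AddSubgroup.zmultiples ((e : ℕ) : ZMod a)) * e = a := by
  classical
  have ha : a ≠ 0 := NeZero.ne a
  rw [← Nat.card_eq_fintype_card, Nat.card_zmultiples, ZMod.addOrderOf_coe e ha,
    Nat.gcd_eq_right he]
  exact Nat.div_mul_cancel he

/-- the sum over the multiples of `e` -/
lemma sum_zmul {e h : ℕ} (he : e ∣ a) (hh : 1 ≤ h) (u : (ZMod a)ˣ)
    [Fintype (AddSubgroup.zmultiples ((e : ℕ) : ZMod a))] :
    ‖∑ m : AddSubgroup.zmultiples ((e : ℕ) : ZMod a),
      (ZMod.stdAddChar (N := a) (h * u * (m : ZMod a) ^ 2) : ℂ)‖ ≤ Real.sqrt (2 * h * a) := by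
  classical
  have ha : a ≠ 0 := NeZero.ne a
  have he0 : 0 < e := Nat.pos_of_dvd_of_pos he (Nat.pos_of_ne_zero ha)
  let K := AddSubgroup.zmultiples ((e : ℕ) : ZMod a)
  have h1 := gauss_sq K ((h : ZMod a) * u)
  have h2 : (univ.filter (fun l : K => ∀ m : K,
      2 * ((h : ZMod a) * u) * l * (m : ZMod a) = 0)).card ≤ 2 * h * e := by
    refine le_trans (Finset.card_le_card ?_)
      (IsAddCyclic.card_nsmul_eq_zero_le (α := K) (n := 2 * h * e) (by positivity))
    intro l hl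
    rw [Finset.mem_filter] at hl ⊢
    refine ⟨Finset.mem_univ _, ?_⟩
    have h3 := hl.2 ⟨(e : ZMod a), AddSubgroup.mem_zmultiples _⟩
    have h4 : ((2 * h * e : ℕ) : ZMod a) * (l : ZMod a) = 0 := by
      have h5 : (u : ZMod a) * (((2 * h * e : ℕ) : ZMod a) * (l : ZMod a)) = 0 := by
        rw [← h3]
        push_cast
        ring
      exact (Units.mul_right_eq_zero u).1 h5
    apply Subtype.ext
    rw [AddSubgroup.coe_nsmul, nsmul_eq_mul, h4]
    rfl
  apply Real.le_sqrt_of_sq_le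
  refine h1.trans ?_
  calc (Fintype.card K : ℝ) * ((univ.filter (fun l : K => ∀ m : K,
      2 * ((h : ZMod a) * u) * l * (m : ZMod a) = 0)).card : ℝ)
      ≤ (Fintype.card K : ℝ) * ((2 * h * e : ℕ) : ℝ) := by gcongr
    _ = 2 * h * ((Fintype.card K * e : ℕ) : ℝ) := by push_cast; ring
    _ = 2 * h * a := by rw [card_zmul he]

/-- Moebius inversion over the units -/
lemma sum_units (f : ZMod a → ℂ) :
    ∑ r : (ZMod a)ˣ, f r = ∑ e ∈ a.divisors, ((ArithmeticFunction.moebius e : ℤ) : ℂ) *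
      ∑ r ∈ univ.filter (fun r : ZMod a => e ∣ r.val), f r := by
  classical
  have ha : a ≠ 0 := NeZero.ne a
  have h1 : ∑ r : (ZMod a)ˣ, f r = ∑ r : ZMod a, if IsUnit r then f r else 0 := by
    rw [← Finset.sum_filter]
    have h2 : (univ : Finset (ZMod a)ˣ).map ⟨Units.val, Units.val_injective⟩ =
        univ.filter (fun r : ZMod a => IsUnit r) := by
      ext r
      simp [IsUnit]
    rw [← h2, Finset.sum_map]
    rfl
  have h3 : ∀ r : ZMod a, (if IsUnit r then f r else 0) =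
      ∑ e ∈ a.divisors, if e ∣ r.val then ((ArithmeticFunction.moebius e : ℤ) : ℂ) * f r else 0 := by
    intro r
    have h4 : a.divisors.filter (fun e => e ∣ r.val) = (Nat.gcd r.val a).divisors := by
      ext e
      simp only [Finset.mem_filter, Nat.mem_divisors]
      constructor
      · rintro ⟨⟨h5, -⟩, h6⟩
        exact ⟨Nat.dvd_gcd h6 h5, Nat.gcd_ne_zero_right ha⟩
      · rintro ⟨h5, -⟩
        exact ⟨⟨h5.trans (Nat.gcd_dvd_right _ _), ha⟩, h5.trans (Nat.gcd_dvd_left _ _)⟩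
    rw [← Finset.sum_filter, h4, ← Finset.sum_mul]
    have h7 : ∑ e ∈ (Nat.gcd r.val a).divisors, ((ArithmeticFunction.moebius e : ℤ) : ℂ) =
        if Nat.gcd r.val a = 1 then 1 else 0 := by
      rw [← Int.cast_sum, ← ArithmeticFunction.coe_mul_zeta_apply,
        ArithmeticFunction.moebius_mul_coe_zeta, ArithmeticFunction.one_apply]
      split_ifs <;> simp
    have h8 : IsUnit r ↔ Nat.gcd r.val a = 1 := by
      conv_lhs => rw [← ZMod.natCast_zmod_val r]
      exact ZMod.isUnit_iff_coprime _ _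
    rw [h7]
    by_cases h9 : IsUnit r
    · rw [if_pos h9, if_pos (h8.1 h9), one_mul]
    · rw [if_neg h9, if_neg (fun h => h9 (h8.2 h)), zero_mul]
  rw [h1, Finset.sum_congr rfl fun r _ => h3 r, Finset.sum_comm]
  refine Finset.sum_congr rfl fun e _ => ?_
  rw [Finset.mul_sum, Finset.sum_filter]

/-- ROW U1 (quadratic exponential sums over the units). -/
theorem unit_sum {h : ℕ} (hh : 1 ≤ h) (u : (ZMod a)ˣ) :
    ‖∑ r : (ZMod a)ˣ, (ZMod.stdAddChar (N := a) (h * u * (r : ZMod a) ^ 2) : ℂ)‖ ≤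
      a.divisors.card * Real.sqrt (2 * h * a) := by
  classical
  rw [sum_units (fun r : ZMod a => (ZMod.stdAddChar (N := a) ((h : ZMod a) * u * r ^ 2) : ℂ))]
  refine (norm_sum_le _ _).trans ?_
  rw [← nsmul_eq_mul a.divisors.card, ← Finset.sum_const]
  refine Finset.sum_le_sum fun e he => ?_
  have he' : e ∣ a := Nat.dvd_of_mem_divisors he
  rw [norm_mul]
  have h1 : ‖((ArithmeticFunction.moebius e : ℤ) : ℂ)‖ ≤ 1 := by
    rw [Complex.norm_intCast]
    exact_mod_cast ArithmeticFunction.abs_moebius_le_one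
  have h2 : ∑ r ∈ univ.filter (fun r : ZMod a => e ∣ r.val),
      (ZMod.stdAddChar (N := a) (h * u * r ^ 2) : ℂ) =
      ∑ m : AddSubgroup.zmultiples ((e : ℕ) : ZMod a),
      (ZMod.stdAddChar (N := a) (h * u * (m : ZMod a) ^ 2) : ℂ) := by
    refine Finset.sum_subtype _ (fun r => ?_) _
    rw [mem_zmul he']
    simp
  rw [h2]
  calc ‖((ArithmeticFunction.moebius e : ℤ) : ℂ)‖ *
      ‖∑ m : AddSubgroup.zmultiples ((e : ℕ) : ZMod a),
      (ZMod.stdAddChar (N := a) (h * u * (m : ZMod a) ^ 2) : ℂ)‖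
      ≤ 1 * Real.sqrt (2 * h * a) :=
        mul_le_mul h1 (sum_zmul he' hh u) (norm_nonneg _) zero_le_one
    _ = Real.sqrt (2 * h * a) := one_mul _

end

end Pool.Agent.Helper45.SQ
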