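import Mathlib

/-!
# Weyl differencing for quadratic exponential sums
-/

set_option autoImplicit false

namespace Pool.Agent.Helper45.SQ

open Finset Complex

lemma norm_psi {a : ℕ} [NeZero a] (s : ZMod a) : ‖(ZMod.stdAddChar (N := a) s : ℂ)‖ = 1 :=
  AddChar.norm_apply _ _

/-- van der Corput's identity without weights. -/
lemma vdc (f : ℕ → ℂ) (hf : ∀ n, ‖f n‖ = 1) (L : ℕ) :
    ‖∑ n ∈ range L, f n‖ ^ 2 + L =
      2 * (∑ n ∈ range L, ∑ k ∈ range (n + 1), f n * (starRingEnd ℂ) (f k)).re := by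
  induction L with
  | zero => simp
  | succ L ih =>
    rw [Finset.sum_range_succ, Finset.sum_range_succ, Complex.add_re, mul_add, ← ih]
    have h1 : ∑ k ∈ range (L + 1), f L * (starRingEnd ℂ) (f k) =
        f L * (starRingEnd ℂ) (∑ k ∈ range L, f k) + 1 := by
      rw [Finset.sum_range_succ, map_sum, Finset.mul_sum]
      congr 1
      rw [Complex.mul_conj, Complex.normSq_eq_norm_sq, hf L]
      simp
    rw [h1]
    have h2 := Complex.normSq_add (∑ n ∈ range L, f n) (f L)
    rw [← Complex.normSq_eq_norm_sq, h2, Complex.normSq_eq_norm_sq, Complex.normSq_eq_norm_sq, hf L]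
    have h3 : ((∑ n ∈ range L, f n) * (starRingEnd ℂ) (f L)).re =
        (f L * (starRingEnd ℂ) (∑ k ∈ range L, f k)).re := by
      rw [← Complex.conj_re, map_mul, Complex.conj_conj, mul_comm]
    rw [h3, Complex.add_re, Complex.one_re]
    push_cast
    ring

lemma vdc_le (f : ℕ → ℂ) (hf : ∀ n, ‖f n‖ = 1) (L : ℕ) :
    ‖∑ n ∈ range L, f n‖ ^ 2 ≤
      2 * ∑ l ∈ range L, ‖∑ k ∈ range (L - l), f (k + l) * (starRingEnd ℂ) (f k)‖ := by
  have h1 := vdc f hf L
  have h2 : ∑ n ∈ range L, ∑ k ∈ range (n + 1), f n * (starRingEnd ℂ) (f k) =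
      ∑ l ∈ range L, ∑ k ∈ range (L - l), f (k + l) * (starRingEnd ℂ) (f k) := by
    rw [← Finset.sum_range_diag_flip L fun l k => f (k + l) * (starRingEnd ℂ) (f k)]
    refine Finset.sum_congr rfl fun n _ => ?_
    rw [← Finset.sum_range_reflect]
    refine Finset.sum_congr rfl fun k hk => ?_
    have hk' := Finset.mem_range.1 hk
    have h3 : n + 1 - 1 - k = n - k := by omega
    rw [h3]
    have h4 : n - k + k = n := by omega
    rw [h4]
  have h3 : (∑ n ∈ range L, ∑ k ∈ range (n + 1), f n * (starRingEnd ℂ) (f k)).re ≤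
      ∑ l ∈ range L, ‖∑ k ∈ range (L - l), f (k + l) * (starRingEnd ℂ) (f k)‖ := by
    rw [h2]
    exact (Complex.re_le_norm _).trans (norm_sum_le _ _)
  have h4 : (0 : ℝ) ≤ L := Nat.cast_nonneg L
  linarith

lemma geom_le {w : ℂ} (hw : ‖w‖ = 1) {δ : ℝ} (hδ : 0 < δ) (h : δ ≤ ‖w - 1‖) (N : ℕ) :
    ‖∑ k ∈ range N, w ^ k‖ ≤ 2 / δ := by
  have h1 : w ≠ 1 := by
    rintro rfl
    simp at h
    linarith
  rw [geom_sum_eq h1, norm_div]
  apply div_le_div₀ (by norm_num) _ hδ h
  calc ‖w ^ N - 1‖ ≤ ‖w ^ N‖ + ‖(1 : ℂ)‖ := norm_sub_le _ _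
    _ = 2 := by rw [norm_pow, hw]; norm_num

lemma psi_sub_one {a : ℕ} [NeZero a] (s : ZMod a) :
    4 * (s.valMinAbs.natAbs : ℝ) / a ≤ ‖(ZMod.stdAddChar (N := a) s : ℂ) - 1‖ := by
  have ha : (0 : ℝ) < a := by exact_mod_cast Nat.pos_of_ne_zero (NeZero.ne a)
  have h1 : (ZMod.stdAddChar (N := a) s : ℂ) =
      Complex.exp (I * ((2 * Real.pi * (s.valMinAbs : ℝ) / a : ℝ) : ℂ)) := by
    conv_lhs => rw [← ZMod.coe_valMinAbs s]
    rw [ZMod.stdAddChar_coe]
    congr 1
    push_cast
    ring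
  rw [h1, Complex.norm_exp_I_mul_ofReal_sub_one, norm_mul, Real.norm_eq_abs, Real.norm_eq_abs]
  have h2 : 2 * Real.pi * (s.valMinAbs : ℝ) / a / 2 = Real.pi * (s.valMinAbs : ℝ) / a := by ring
  rw [h2]
  have h3 : |Real.pi * (s.valMinAbs : ℝ) / a| ≤ Real.pi / 2 := by
    rw [abs_div, abs_mul, abs_of_pos Real.pi_pos, abs_of_pos ha, div_le_div_iff₀ ha (by norm_num)]
    have h4 := ZMod.natAbs_valMinAbs_le s
    have h5 : |(s.valMinAbs : ℝ)| = (s.valMinAbs.natAbs : ℝ) := by
      rw [← Int.cast_abs, Int.abs_eq_natAbs]; simp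
    rw [h5]
    have h6 : (s.valMinAbs.natAbs : ℝ) * 2 ≤ a := by
      have : s.valMinAbs.natAbs * 2 ≤ a := by omega
      exact_mod_cast this
    calc Real.pi * (s.valMinAbs.natAbs : ℝ) * 2 = Real.pi * ((s.valMinAbs.natAbs : ℝ) * 2) := by ring
      _ ≤ Real.pi * a := mul_le_mul_of_nonneg_left h6 Real.pi_pos.le
  have h4 := Real.mul_abs_le_abs_sin h3
  have h5 : |(s.valMinAbs : ℝ)| = (s.valMinAbs.natAbs : ℝ) := by
    rw [← Int.cast_abs, Int.abs_eq_natAbs]; simp
  rw [abs_div, abs_mul, abs_of_pos Real.pi_pos, abs_of_pos ha, h5] at h4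
  have h6 : 2 / Real.pi * (Real.pi * (s.valMinAbs.natAbs : ℝ) / a) =
      2 * (s.valMinAbs.natAbs : ℝ) / a := by
    have := Real.pi_pos.ne'
    field_simp
  rw [h6] at h4
  rw [abs_of_pos (by norm_num : (0 : ℝ) < 2)]
  calc 4 * (s.valMinAbs.natAbs : ℝ) / a = 2 * (2 * (s.valMinAbs.natAbs : ℝ) / a) := by ring
    _ ≤ _ := mul_le_mul_of_nonneg_left h4 (by norm_num)

/-- the number of representatives of a residue in an initial segment -/
lemma card_res {a : ℕ} [NeZero a] (L : ℕ) (v : ZMod a) :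
    (((range L).filter (fun l : ℕ => (l : ZMod a) = v)).card : ℝ) ≤ (L : ℝ) / a + 1 := by
  have ha0 : 0 < a := Nat.pos_of_ne_zero (NeZero.ne a)
  have ha : (0 : ℝ) < a := by exact_mod_cast ha0
  have h1 : ((range L).filter (fun l : ℕ => (l : ZMod a) = v)).card ≤ L / a + 1 := by
    have h2 : ((range L).filter (fun l : ℕ => (l : ZMod a) = v)).card ≤
        ((range (L / a + 1))).card := by
      apply Finset.card_le_card_of_injOn (fun l => l / a)
      · intro l hl
        have hl' := Finset.mem_range.1 (Finset.mem_filter.1 hl).1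
        rw [Finset.mem_coe, Finset.mem_range]
        have := Nat.div_le_div_right (c := a) hl'.le
        change l / a < L / a + 1
        omega
      · intro l hl l' hl' h
        have h3 := (Finset.mem_filter.1 hl).2
        have h4 := (Finset.mem_filter.1 hl').2
        have h5 : (l : ZMod a) = (l' : ZMod a) := h3.trans h4.symm
        rw [ZMod.natCast_eq_natCast_iff'] at h5
        have h6 : l / a = l' / a := h
        rw [← Nat.div_add_mod l a, ← Nat.div_add_mod l' a, h5, h6]
    rw [Finset.card_range] at h2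
    exact h2
  have h2 : (((L / a : ℕ) : ℝ)) ≤ (L : ℝ) / a := Nat.cast_div_le
  calc (((range L).filter (fun l : ℕ => (l : ZMod a) = v)).card : ℝ) ≤ ((L / a + 1 : ℕ) : ℝ) := by
        exact_mod_cast h1
    _ = ((L / a : ℕ) : ℝ) + 1 := by push_cast; ring
    _ ≤ _ := by linarith

lemma card_small {a : ℕ} [NeZero a] (T : ℕ) :
    (univ.filter (fun s : ZMod a => s.valMinAbs.natAbs ≤ T)).card ≤ 2 * T + 1 := by
  have h1 : (univ.filter (fun s : ZMod a => s.valMinAbs.natAbs ≤ T)).card ≤
      (Finset.Icc (-(T : ℤ)) T).card := by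
    apply Finset.card_le_card_of_injOn (fun s => s.valMinAbs)
    · intro s hs
      have h2 := (Finset.mem_filter.1 hs).2
      rw [Finset.mem_coe, Finset.mem_Icc]
      change -(T : ℤ) ≤ s.valMinAbs ∧ s.valMinAbs ≤ T
      omega
    · intro s _ s' _ h
      exact ZMod.injective_valMinAbs h
  refine h1.trans ?_
  rw [Int.card_Icc]
  omega

lemma card_fib {a : ℕ} [NeZero a] (c s : ZMod a) :
    (univ.filter (fun v : ZMod a => c * v = s)).card ≤
      (univ.filter (fun v : ZMod a => c * v = 0)).card := by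
  by_cases h : ∃ v₀ : ZMod a, c * v₀ = s
  · obtain ⟨v₀, hv₀⟩ := h
    apply Finset.card_le_card_of_injOn (fun v => v - v₀)
    · intro v hv
      have h2 := (Finset.mem_filter.1 hv).2
      rw [Finset.mem_coe, Finset.mem_filter]
      refine ⟨Finset.mem_univ _, ?_⟩
      rw [mul_sub, h2, hv₀, sub_self]
    · intro v _ v' _ h
      exact sub_left_injective h
  · have h2 : univ.filter (fun v : ZMod a => c * v = s) = ∅ := by
      rw [Finset.filter_eq_empty_iff]
      intro v _ hv
      exact h ⟨v, hv⟩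
    rw [h2]
    simp

lemma card_bad {a : ℕ} [NeZero a] (c : ZMod a) (T : ℕ) :
    (univ.filter (fun v : ZMod a => (c * v).valMinAbs.natAbs ≤ T)).card ≤
      (2 * T + 1) * (univ.filter (fun v : ZMod a => c * v = 0)).card := by
  have h1 := Finset.card_eq_sum_card_fiberwise
    (s := univ.filter (fun v : ZMod a => (c * v).valMinAbs.natAbs ≤ T))
    (t := univ.filter (fun s : ZMod a => s.valMinAbs.natAbs ≤ T)) (f := fun v => c * v)
    (by
      intro v hv
      have h2 := (Finset.mem_filter.1 hv).2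
      exact Finset.mem_filter.2 ⟨Finset.mem_univ _, h2⟩)
  rw [h1]
  calc _ ≤ ∑ s ∈ univ.filter (fun s : ZMod a => s.valMinAbs.natAbs ≤ T),
        (univ.filter (fun v : ZMod a => c * v = 0)).card := by
        refine Finset.sum_le_sum fun s _ => ?_
        refine le_trans (Finset.card_le_card ?_) (card_fib c s)
        intro v hv
        exact Finset.mem_filter.2 ⟨Finset.mem_univ _, (Finset.mem_filter.1 hv).2⟩
    _ = _ := by rw [Finset.sum_const, smul_eq_mul]
    _ ≤ _ := Nat.mul_le_mul_right _ (card_small T)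

lemma card_bad_range {a : ℕ} [NeZero a] (c : ZMod a) (T L : ℕ) :
    (((range L).filter (fun l : ℕ => (c * (l : ZMod a)).valMinAbs.natAbs ≤ T)).card : ℝ) ≤
      (2 * T + 1) * ((univ.filter (fun v : ZMod a => c * v = 0)).card : ℝ) * ((L : ℝ) / a + 1) := by
  have h1 := Finset.card_eq_sum_card_fiberwise
    (s := (range L).filter (fun l : ℕ => (c * (l : ZMod a)).valMinAbs.natAbs ≤ T))
    (t := univ.filter (fun v : ZMod a => (c * v).valMinAbs.natAbs ≤ T))
    (f := fun l : ℕ => (l : ZMod a))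
    (by
      intro l hl
      have h2 := (Finset.mem_filter.1 hl).2
      exact Finset.mem_filter.2 ⟨Finset.mem_univ _, h2⟩)
  rw [h1]
  push_cast
  calc _ ≤ ∑ v ∈ univ.filter (fun v : ZMod a => (c * v).valMinAbs.natAbs ≤ T),
        ((L : ℝ) / a + 1) := by
        refine Finset.sum_le_sum fun v _ => ?_
        refine le_trans ?_ (card_res L v)
        have h2 : (((range L).filter (fun l : ℕ => (c * (l : ZMod a)).valMinAbs.natAbs ≤ T)).filter
            (fun l : ℕ => (l : ZMod a) = v)).card ≤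
            ((range L).filter (fun l : ℕ => (l : ZMod a) = v)).card := by
          apply Finset.card_le_card
          intro l hl
          have h3 := Finset.mem_filter.1 hl
          exact Finset.mem_filter.2 ⟨(Finset.mem_filter.1 h3.1).1, h3.2⟩
        exact_mod_cast h2
    _ = ((univ.filter (fun v : ZMod a => (c * v).valMinAbs.natAbs ≤ T)).card : ℝ) *
        ((L : ℝ) / a + 1) := by rw [Finset.sum_const, nsmul_eq_mul]
    _ ≤ _ := by
        apply mul_le_mul_of_nonneg_right _ (by positivity)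
        have h2 := card_bad c T
        exact_mod_cast h2

/-- Weyl differencing on an initial segment -/
theorem weyl_range {a : ℕ} [NeZero a] (c : ZMod a) (x L : ℕ) {T : ℕ} (hT : 1 ≤ T) :
    ‖∑ n ∈ range L, (ZMod.stdAddChar (N := a) (c * ((x + n : ℕ) : ZMod a) ^ 2) : ℂ)‖ ^ 2 ≤
      (L : ℝ) * (a / T) + L * ((2 * T + 1) *
        ((univ.filter (fun l : ZMod a => 2 * c * l = 0)).card : ℝ) * (2 * ((L : ℝ) / a + 1))) := by
  have ha : (0 : ℝ) < a := by exact_mod_cast Nat.pos_of_ne_zero (NeZero.ne a)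
  have hT0 : (0 : ℝ) < T := by exact_mod_cast hT
  have h1 := vdc_le (fun n => (ZMod.stdAddChar (N := a) (c * ((x + n : ℕ) : ZMod a) ^ 2) : ℂ))
    (fun n => norm_psi _) L
  refine h1.trans ?_
  have h2 : ∀ l ∈ range L, ‖∑ k ∈ range (L - l),
      (ZMod.stdAddChar (N := a) (c * ((x + (k + l) : ℕ) : ZMod a) ^ 2) : ℂ) *
      (starRingEnd ℂ) (ZMod.stdAddChar (N := a) (c * ((x + k : ℕ) : ZMod a) ^ 2) : ℂ)‖ =
      ‖∑ k ∈ range (L - l), (ZMod.stdAddChar (N := a) (2 * c * (l : ZMod a)) : ℂ) ^ k‖ := by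
    intro l _
    have h3 : ∀ k ∈ range (L - l),
        (ZMod.stdAddChar (N := a) (c * ((x + (k + l) : ℕ) : ZMod a) ^ 2) : ℂ) *
        (starRingEnd ℂ) (ZMod.stdAddChar (N := a) (c * ((x + k : ℕ) : ZMod a) ^ 2) : ℂ) =
        (ZMod.stdAddChar (N := a) (c * l * (2 * x + l)) : ℂ) *
        (ZMod.stdAddChar (N := a) (2 * c * (l : ZMod a)) : ℂ) ^ k := by
      intro k _
      rw [← AddChar.map_neg_eq_conj, ← AddChar.map_add_eq_mul, ← AddChar.map_nsmul_eq_pow,
        ← AddChar.map_add_eq_mul]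
      congr 1
      push_cast
      rw [nsmul_eq_mul]
      ring
    rw [Finset.sum_congr rfl h3, ← Finset.mul_sum, norm_mul, norm_psi, one_mul]
  rw [Finset.sum_congr rfl h2]
  rw [← Finset.sum_filter_add_sum_filter_not (range L)
    (fun l : ℕ => (2 * c * (l : ZMod a)).valMinAbs.natAbs ≤ T)]
  have h4 : ∑ l ∈ (range L).filter (fun l : ℕ => (2 * c * (l : ZMod a)).valMinAbs.natAbs ≤ T),
      ‖∑ k ∈ range (L - l), (ZMod.stdAddChar (N := a) (2 * c * (l : ZMod a)) : ℂ) ^ k‖ ≤
      ((2 * T + 1) * ((univ.filter (fun l : ZMod a => 2 * c * l = 0)).card : ℝ) *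
        ((L : ℝ) / a + 1)) * L := by
    calc _ ≤ ∑ l ∈ (range L).filter (fun l : ℕ => (2 * c * (l : ZMod a)).valMinAbs.natAbs ≤ T),
          (L : ℝ) := by
          refine Finset.sum_le_sum fun l _ => ?_
          refine (norm_sum_le _ _).trans ?_
          have h5 : ∀ k ∈ range (L - l),
              ‖(ZMod.stdAddChar (N := a) (2 * c * (l : ZMod a)) : ℂ) ^ k‖ = 1 := by
            intro k _
            rw [norm_pow, norm_psi, one_pow]
          rw [Finset.sum_congr rfl h5, Finset.sum_const, Finset.card_range, nsmul_eq_mul, mul_one]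
          exact_mod_cast Nat.sub_le L l
      _ = (((range L).filter
          (fun l : ℕ => (2 * c * (l : ZMod a)).valMinAbs.natAbs ≤ T)).card : ℝ) * L := by
          rw [Finset.sum_const, nsmul_eq_mul]
      _ ≤ _ := mul_le_mul_of_nonneg_right (card_bad_range (2 * c) T L) (Nat.cast_nonneg L)
  have h5 : ∑ l ∈ (range L).filter (fun l : ℕ => ¬ (2 * c * (l : ZMod a)).valMinAbs.natAbs ≤ T),
      ‖∑ k ∈ range (L - l), (ZMod.stdAddChar (N := a) (2 * c * (l : ZMod a)) : ℂ) ^ k‖ ≤
      L * (a / (2 * T)) := by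
    calc _ ≤ ∑ l ∈ (range L).filter
          (fun l : ℕ => ¬ (2 * c * (l : ZMod a)).valMinAbs.natAbs ≤ T), (a : ℝ) / (2 * T) := by
          refine Finset.sum_le_sum fun l hl => ?_
          have h6 := (Finset.mem_filter.1 hl).2
          have h7 : (4 : ℝ) * T / a ≤
              ‖(ZMod.stdAddChar (N := a) (2 * c * (l : ZMod a)) : ℂ) - 1‖ := by
            refine le_trans ?_ (psi_sub_one _)
            apply div_le_div_of_nonneg_right _ ha.le
            have h8 : (T : ℝ) ≤ ((2 * c * (l : ZMod a)).valMinAbs.natAbs : ℝ) := by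
              exact_mod_cast (not_le.1 h6).le
            linarith
          have h8 := geom_le (norm_psi _) (by positivity) h7 (L - l)
          refine h8.trans (le_of_eq ?_)
          field_simp
          norm_num
      _ = (((range L).filter
          (fun l : ℕ => ¬ (2 * c * (l : ZMod a)).valMinAbs.natAbs ≤ T)).card : ℝ) *
          ((a : ℝ) / (2 * T)) := by
          rw [Finset.sum_const, nsmul_eq_mul]
      _ ≤ _ := by
          apply mul_le_mul_of_nonneg_right _ (by positivity)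
          have h6 := Finset.card_filter_le (range L)
            (fun l : ℕ => ¬ (2 * c * (l : ZMod a)).valMinAbs.natAbs ≤ T)
          rw [Finset.card_range] at h6
          exact_mod_cast h6
  have h6 : 2 * ((L : ℝ) * (a / (2 * T))) = L * (a / T) := by
    field_simp
  nlinarith [h4, h5, h6]

end Pool.Agent.Helper45.SQ
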